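import Mathlib

set_option autoImplicit false

/-! Directed multigraphs with node type `V` and arc type `E`, given by the tail and head maps
`tl hd : E → V`. -/

namespace Pool.Agent.TH944.Arb

variable {V E : Type}

/-- `Walk tl hd x l y`: the list of arcs `l` is a directed walk from `x` to `y`
(in an acyclic digraph this is the same as a directed path) -/
def Walk (tl hd : E → V) : V → List E → V → Prop
  | x, [], y => x = y
  | x, a :: l, y => tl a = x ∧ Walk tl hd (hd a) l y

/-- the set of nodes of the walk with arc list `l` that starts at `x` -/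
def nodes (hd : E → V) (x : V) (l : List E) : Set V := {z | z = x ∨ ∃ a ∈ l, hd a = z}

/-- there is no closed directed walk with at least one arc -/
def Acyclic (tl hd : E → V) : Prop := ∀ (x : V) (l : List E), Walk tl hd x l x → l = []

/-- every directed path with both ends in `U` has all its nodes in `U` -/
def ConvexNodes (tl hd : E → V) (U : Set V) : Prop :=
  ∀ (x : V) (l : List E) (y : V), Walk tl hd x l y → x ∈ U → y ∈ U → nodes hd x l ⊆ U

/-- the node set `U` and the arc set `F` form an `r`-arborescence: `r ∈ U`, the arcs of `F` have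
both ends in `U`, and every node of `U` is reached from `r` by exactly one directed path with
arcs in `F` -/
structure IsArborescence (tl hd : E → V) (r : V) (U : Set V) (F : Set E) : Prop where
  root : r ∈ U
  arcs : ∀ a ∈ F, tl a ∈ U ∧ hd a ∈ U
  path : ∀ x ∈ U, ∃! l : List E, (∀ a ∈ l, a ∈ F) ∧ Walk tl hd r l x

/-- the paths `l₁` from `r₁` to `v` and `l₂` from `r₂` to `v` share no arc, and their node sets
meet exactly in `v` and in the common root, if there is one -/
def OpenlyDisjoint (hd : E → V) (v r₁ : V) (l₁ : List E) (r₂ : V) (l₂ : List E) : Prop :=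
  (∀ a ∈ l₁, a ∉ l₂) ∧ nodes hd r₁ l₁ ∩ nodes hd r₂ l₂ = {v} ∪ ({r₁} ∩ {r₂})

/-- the family of `r i`-arborescences `(U i, F i)` is independent: for every node `v` the paths
from `r i` to `v` in `F i`, over all `i` with `v ∈ U i`, are pairwise openly disjoint -/
def Independent (tl hd : E → V) {k : ℕ} (r : Fin k → V) (U : Fin k → Set V)
    (F : Fin k → Set E) : Prop :=
  ∀ (v : V) (i j : Fin k), i ≠ j → v ∈ U i → v ∈ U j → ∀ l₁ l₂ : List E,
    (∀ a ∈ l₁, a ∈ F i) → Walk tl hd (r i) l₁ v →
    (∀ a ∈ l₂, a ∈ F j) → Walk tl hd (r j) l₂ v →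
    OpenlyDisjoint hd v (r i) l₁ (r j) l₂

end Pool.Agent.TH944.Arb
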