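import Mathlib

set_option autoImplicit false

namespace Pool.Agent.TH944.Arb

open Finset

/-- integer duality for the assignment problem with forbidden pairs -/
theorem hungarian {k : ℕ} (A : Fin k → Fin k → Prop) (hA : ∀ s, A s s) (w : Fin k → Fin k → ℤ) :
    ∃ (σ : Equiv.Perm (Fin k)) (p : Fin k → ℤ), (∀ s, A s (σ s)) ∧
      ∀ s j, A s j → w s j - p j ≤ w s (σ s) - p (σ s) := by
  classical
  let B : Fin k → Finset (Fin k) := fun s => univ.filter (A s)
  have hB : ∀ s, (B s).Nonempty := fun s => ⟨s, by simp [B, hA]⟩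
  let top : (Fin k → ℤ) → Fin k → ℤ := fun p s => (B s).sup' (hB s) (fun j => w s j - p j)
  let D : (Fin k → ℤ) → ℤ := fun p => ∑ s, top p s + ∑ j, p j
  have htop : ∀ p s j, A s j → w s j - p j ≤ top p s := by
    intro p s j hj
    exact Finset.le_sup' (fun j => w s j - p j) (by simp [B, hj])
  have hlow : ∀ p, ∑ s, w s s ≤ D p := by
    intro p
    have h1 : ∑ s, (w s s - p s) ≤ ∑ s, top p s := Finset.sum_le_sum fun s _ => htop p s s (hA s)
    rw [Finset.sum_sub_distrib] at h1
    simp only [D]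
    linarith
  obtain ⟨p, -, hp⟩ := WellFounded.has_min
    (measure (fun p => (D p - ∑ s, w s s).toNat)).wf Set.univ ⟨0, trivial⟩
  have hpmin : ∀ q, D p ≤ D q := by
    intro q
    have h1 := hp q trivial
    have h2 : ¬ ((D q - ∑ s, w s s).toNat < (D p - ∑ s, w s s).toNat) := h1
    have h3 := hlow p
    have h4 := hlow q
    omega
  let M : Fin k → Finset (Fin k) := fun s => (B s).filter (fun j => w s j - p j = top p s)
  have hall : ∀ X : Finset (Fin k), X.card ≤ (X.biUnion M).card := by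
    intro X
    by_contra hlt
    push Not at hlt
    let Y := X.biUnion M
    let q : Fin k → ℤ := fun j => p j + if j ∈ Y then 1 else 0
    have hq : ∑ j, q j = ∑ j, p j + (Y.card : ℤ) := by
      simp only [q]
      rw [Finset.sum_add_distrib]
      simp
    have ht : ∀ s, top q s ≤ top p s - if s ∈ X then 1 else 0 := by
      intro s
      apply Finset.sup'_le
      intro j hj
      have hAj : A s j := by simpa [B] using hj
      have h1 := htop p s j hAj
      by_cases hs : s ∈ X
      · simp only [hs, if_true, q]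
        by_cases hjY : j ∈ Y
        · simp only [hjY, if_true]; omega
        · simp only [hjY, if_false]
          have : w s j - p j ≠ top p s := by
            intro h
            apply hjY
            simp only [Y, mem_biUnion]
            exact ⟨s, hs, by simp [M, hj, h]⟩
          omega
      · simp only [hs, if_false, q]
        by_cases hjY : j ∈ Y
        · simp only [hjY, if_true]; omega
        · simp only [hjY, if_false]; omega
    have hs : ∑ s, top q s ≤ ∑ s, top p s - (X.card : ℤ) := by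
      calc ∑ s, top q s ≤ ∑ s, (top p s - if s ∈ X then 1 else 0) :=
            Finset.sum_le_sum fun s _ => ht s
        _ = ∑ s, top p s - (X.card : ℤ) := by
            rw [Finset.sum_sub_distrib]; simp
    have hD := hpmin q
    simp only [D] at hD
    have hlt' : (Y.card : ℤ) < X.card := by exact_mod_cast hlt
    linarith
  obtain ⟨g, hg, hgM⟩ := (Finset.all_card_le_biUnion_card_iff_exists_injective M).1 hall
  let σ : Equiv.Perm (Fin k) := Equiv.ofBijective g (Finite.injective_iff_bijective.1 hg)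
  have hσ : ∀ s, σ s = g s := fun s => rfl
  refine ⟨σ, p, fun s => ?_, fun s j hj => ?_⟩
  · have := hgM s
    simp only [M, B, mem_filter, mem_univ, true_and] at this
    exact this.1
  · have := hgM s
    simp only [M, B, mem_filter, mem_univ, true_and] at this
    rw [hσ, this.2]
    exact htop p s j hj

/-- strict complementary potentials, for weights without ties on the free slots -/
theorem local_opt {k : ℕ} (A : Fin k → Fin k → Prop) (hA : ∀ s, A s s) (Fr : Fin k → Prop)
    (w : Fin k → Fin k → ℤ)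
    (hgen : ∀ σ τ : Equiv.Perm (Fin k), (∀ s, A s (σ s)) → (∀ s, A s (τ s)) →
      ∑ s, w s (σ s) = ∑ s, w s (τ s) → ∀ s, Fr s → σ s = τ s) :
    ∃ (σ : Equiv.Perm (Fin k)) (p : Fin k → ℤ), (∀ s, A s (σ s)) ∧
      ∀ s j, Fr s → A s j → j ≠ σ s →
        ((k : ℤ) + 1) * w s j - p j < ((k : ℤ) + 1) * w s (σ s) - p (σ s) := by
  classical
  -- an optimal allowed permutation
  obtain ⟨σ₀, hσ₀, hmax⟩ := Finset.exists_max_image
    (univ.filter fun σ : Equiv.Perm (Fin k) => ∀ s, A s (σ s)) (fun σ => ∑ s, w s (σ s))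
    ⟨1, by simp [hA]⟩
  have hσ₀A : ∀ s, A s (σ₀ s) := by simpa using hσ₀
  let w' : Fin k → Fin k → ℤ := fun s j =>
    ((k : ℤ) + 1) * w s j + if Fr s ∧ j ≠ σ₀ s then 1 else 0
  obtain ⟨σ, p, hσA, hσ⟩ := hungarian A hA w'
  have h1 : ∑ s, w' s (σ₀ s) ≤ ∑ s, w' s (σ s) := by
    have h : ∑ s, (w' s (σ₀ s) - p (σ₀ s)) ≤ ∑ s, (w' s (σ s) - p (σ s)) :=
      Finset.sum_le_sum fun s _ => hσ s _ (hσ₀A s)
    rw [Finset.sum_sub_distrib, Finset.sum_sub_distrib, Equiv.sum_comp σ₀ p, Equiv.sum_comp σ p] at h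
    linarith
  have h2 : ∑ s, w' s (σ₀ s) = ((k : ℤ) + 1) * ∑ s, w s (σ₀ s) := by
    rw [Finset.mul_sum]
    apply Finset.sum_congr rfl
    intro s _
    simp [w']
  have h3 : ∑ s, w' s (σ s) ≤ ((k : ℤ) + 1) * ∑ s, w s (σ s) + k := by
    rw [Finset.mul_sum]
    calc ∑ s, w' s (σ s) ≤ ∑ s, (((k : ℤ) + 1) * w s (σ s) + 1) := by
          apply Finset.sum_le_sum
          intro s _
          simp only [w']
          split_ifs <;> linarith
      _ = ∑ s, ((k : ℤ) + 1) * w s (σ s) + k := by
          rw [Finset.sum_add_distrib]; simp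
  have h4 : ∑ s, w s (σ s) ≤ ∑ s, w s (σ₀ s) := hmax σ (by simpa using hσA)
  have h5 : ∑ s, w s (σ₀ s) ≤ ∑ s, w s (σ s) := by
    by_contra hc
    push Not at hc
    have : ∑ s, w s (σ s) + 1 ≤ ∑ s, w s (σ₀ s) := hc
    rw [h2] at h1
    have hk : (0 : ℤ) ≤ k := Int.natCast_nonneg k
    nlinarith
  have heq := hgen σ σ₀ hσA hσ₀A (le_antisymm h4 h5)
  refine ⟨σ, p, hσA, fun s j hs hj hne => ?_⟩
  have h6 := hσ s j hj
  have h7 := heq s hs
  simp only [w'] at h6
  rw [if_pos ⟨hs, by rw [← h7]; exact hne⟩, if_neg (by rintro ⟨-, h⟩; exact h h7)] at h6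
  linarith

/-- coordinates without ties -/
def Gen {V : Type} {k : ℕ} (c : V → Fin k → ℤ) : Prop :=
  ∀ (S : Finset (Fin k)) (t : Fin k → V) (α β : Fin k → Fin k), Set.InjOn t S →
    ∑ s ∈ S, c (t s) (α s) = ∑ s ∈ S, c (t s) (β s) → ∀ s ∈ S, α s = β s

theorem perturb {V : Type} [Fintype V] {k : ℕ} (c : V → Fin k → ℤ) :
    ∃ c' : V → Fin k → ℤ, Gen c' ∧ ∀ w w' i j, c w' i - c w' j < c w i - c w j →
      c' w' i - c' w' j < c' w i - c' w j := by
  classical
  let e := Fintype.equivFin (V × Fin k)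
  let m := Fintype.card (V × Fin k)
  let θ : V → Fin k → ℕ := fun w i => 2 ^ (e (w, i) : ℕ)
  have hθ1 : ∀ w i, θ w i ≤ 2 ^ m := by
    intro w i
    exact Nat.pow_le_pow_right (by norm_num) (e (w, i)).2.le
  let N : ℤ := ((k : ℤ) + 4) * 2 ^ m
  have hθ2 : ∀ w i, (0 : ℤ) ≤ (θ w i : ℤ) := fun w i => Int.natCast_nonneg _
  have hθ3 : ∀ w i, (θ w i : ℤ) ≤ 2 ^ m := by
    intro w i; exact_mod_cast hθ1 w i
  have h2m : (0 : ℤ) < 2 ^ m := by positivity
  have hk : (0 : ℤ) ≤ k := Int.natCast_nonneg k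
  refine ⟨fun w i => N * c w i + θ w i, ?_, ?_⟩
  · intro S t α β ht hsum s hs
    have h1 : N * (∑ s ∈ S, c (t s) (α s) - ∑ s ∈ S, c (t s) (β s)) =
        ∑ s ∈ S, (θ (t s) (β s) : ℤ) - ∑ s ∈ S, (θ (t s) (α s) : ℤ) := by
      have h := hsum
      simp only [Finset.sum_add_distrib, ← Finset.mul_sum] at h
      linarith
    have hb : ∀ γ : Fin k → Fin k, 0 ≤ ∑ s ∈ S, (θ (t s) (γ s) : ℤ) ∧
        ∑ s ∈ S, (θ (t s) (γ s) : ℤ) ≤ k * 2 ^ m := by
      intro γ
      constructor
      · exact Finset.sum_nonneg fun s _ => hθ2 _ _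
      · calc ∑ s ∈ S, (θ (t s) (γ s) : ℤ) ≤ ∑ s ∈ S, (2 : ℤ) ^ m :=
              Finset.sum_le_sum fun s _ => hθ3 _ _
          _ = S.card * 2 ^ m := by simp
          _ ≤ k * 2 ^ m := by
              have : (S.card : ℤ) ≤ k := by
                have := Finset.card_le_univ S
                rw [Fintype.card_fin] at this
                exact_mod_cast this
              nlinarith
    have hzero : ∑ s ∈ S, (θ (t s) (β s) : ℤ) - ∑ s ∈ S, (θ (t s) (α s) : ℤ) = 0 := by
      apply Int.eq_zero_of_abs_lt_dvd (m := N)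
      · exact ⟨_, h1.symm⟩
      · have ha := hb α
        have hbb := hb β
        rw [abs_lt]
        constructor <;> nlinarith
    have hnat : ∑ s ∈ S, θ (t s) (β s) = ∑ s ∈ S, θ (t s) (α s) := by
      have : ((∑ s ∈ S, θ (t s) (β s) : ℕ) : ℤ) = ((∑ s ∈ S, θ (t s) (α s) : ℕ) : ℤ) := by
        push_cast
        linarith
      exact_mod_cast this
    have himg : ∀ γ : Fin k → Fin k, ∑ s ∈ S, θ (t s) (γ s) =
        ∑ x ∈ S.image (fun s => (e (t s, γ s) : ℕ)), 2 ^ x := by
      intro γ
      rw [Finset.sum_image]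
      intro x hx y hy hxy
      have h1 : e (t x, γ x) = e (t y, γ y) := Fin.ext hxy
      have h2 := e.injective h1
      rw [Prod.mk.injEq] at h2
      exact ht hx hy h2.1
    rw [himg, himg] at hnat
    have hset := Finset.geomSum_injective (n := 2) le_rfl hnat
    have hmem : (e (t s, α s) : ℕ) ∈ S.image (fun s => (e (t s, β s) : ℕ)) := by
      rw [hset]
      exact Finset.mem_image_of_mem _ hs
    rw [Finset.mem_image] at hmem
    obtain ⟨s', hs', h⟩ := hmem
    have h2 := e.injective (Fin.ext h)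
    rw [Prod.mk.injEq] at h2
    have h3 := ht hs' hs h2.1
    subst h3
    exact h2.2.symm
  · intro w w' i j h
    have h1 := hθ2 w i
    have h2 := hθ3 w j
    have h3 := hθ3 w' i
    have h4 := hθ2 w' j
    have h5 : c w' i - c w' j + 1 ≤ c w i - c w j := h
    have hN : (0 : ℤ) < N := by positivity
    have h6 : N * (c w' i - c w' j + 1) ≤ N * (c w i - c w j) :=
      mul_le_mul_of_nonneg_left h5 hN.le
    have h7 : 2 * 2 ^ m < N := by
      simp only [N]; nlinarith
    simp only
    nlinarith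

end Pool.Agent.TH944.Arb
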