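import Mathlib
import Pool.Agent.TH944.Hung
import Pool.Agent.TH944.ArbDefs

set_option autoImplicit false

namespace Pool.Agent.TH944.Arb

open Finset

variable {V E : Type}

/-- local slots at a node `y` -/
def Slots (tl hd : E → V) {k : ℕ} (r : Fin k → V) (U : Fin k → Set V) (y : V)
    (q : Fin k → E) : Prop :=
  ∀ i, y ∈ U i → y ≠ r i → hd (q i) = y ∧ tl (q i) ∈ U i ∧
    (∀ l, y ∈ U l → r l = tl (q i) → r i = tl (q i)) ∧
    (∀ j, j ≠ i → y ∈ U j → y ≠ r j → q i ≠ q j)

/-- the coordinate inequalities at `y` -/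
def Ineq (tl : E → V) {k : ℕ} (r : Fin k → V) (U : Fin k → Set V) (y : V)
    (q : Fin k → E) (c : V → Fin k → ℤ) : Prop :=
  ∀ i, y ∈ U i → y ≠ r i → ∀ j, j ≠ i → y ∈ U j → y ≠ r j →
    (∀ l, y ∈ U l → r l ≠ tl (q i)) → tl (q i) ∈ U j →
    c y i - c y j < c (tl (q i)) i - c (tl (q i)) j

/-- one node -/
theorem node_step (tl hd : E → V) {k : ℕ} (r : Fin k → V) (U : Fin k → Set V)
    (y : V) (a : Fin k → E) (ha : Slots tl hd r U y a)
    (ht : ∀ i j, i ≠ j → y ∈ U i → y ≠ r i → y ∈ U j → y ≠ r j → tl (a i) = tl (a j) →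
      tl (a i) = r i)
    (c : V → Fin k → ℤ) (hc : Gen c) :
    ∃ (q : Fin k → E) (p : Fin k → ℤ), Slots tl hd r U y q ∧
      ∀ i, y ∈ U i → y ≠ r i → ∀ j, j ≠ i → y ∈ U j → y ≠ r j →
        (∀ l, y ∈ U l → r l ≠ tl (q i)) → tl (q i) ∈ U j →
        p i - p j < ((k : ℤ) + 1) * c (tl (q i)) i - ((k : ℤ) + 1) * c (tl (q i)) j := by
  classical
  let J : Fin k → Prop := fun i => y ∈ U i ∧ y ≠ r i
  let A : Fin k → Fin k → Prop := fun s j => s = j ∨
    (J s ∧ J j ∧ tl (a s) ∈ U j ∧ ((∃ l, y ∈ U l ∧ r l = tl (a s)) → r j = tl (a s)))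
  let Fr : Fin k → Prop := fun s => J s ∧ ∀ l, y ∈ U l → r l ≠ tl (a s)
  let w : Fin k → Fin k → ℤ := fun s j => if Fr s then c (tl (a s)) j else 0
  have hgen : ∀ σ τ : Equiv.Perm (Fin k), (∀ s, A s (σ s)) → (∀ s, A s (τ s)) →
      ∑ s, w s (σ s) = ∑ s, w s (τ s) → ∀ s, Fr s → σ s = τ s := by
    intro σ τ _ _ h s hs
    have hw : ∀ γ : Equiv.Perm (Fin k), ∑ s, w s (γ s) =
        ∑ s ∈ univ.filter Fr, c (tl (a s)) (γ s) := by
      intro γ
      rw [Finset.sum_filter]
    rw [hw, hw] at h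
    refine hc (univ.filter Fr) (fun s => tl (a s)) σ τ ?_ h s (by simpa using hs)
    intro s₁ h₁ s₂ h₂ h12
    by_contra hne
    have h₁' : Fr s₁ := by simpa using h₁
    have h₂' : Fr s₂ := by simpa using h₂
    have := ht s₁ s₂ hne h₁'.1.1 h₁'.1.2 h₂'.1.1 h₂'.1.2 h12
    exact h₁'.2 s₁ h₁'.1.1 this.symm
  obtain ⟨σ, p, hσ, hp⟩ := local_opt A (fun s => Or.inl rfl) Fr w hgen
  have key : ∀ j, J j → J (σ.symm j) ∧ tl (a (σ.symm j)) ∈ U j ∧
      ((∃ l, y ∈ U l ∧ r l = tl (a (σ.symm j))) → r j = tl (a (σ.symm j))) := by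
    intro j hj
    have h := hσ (σ.symm j)
    rw [Equiv.apply_symm_apply] at h
    rcases h with h | h
    · rw [h]
      have := ha j hj.1 hj.2
      refine ⟨hj, this.2.1, ?_⟩
      rintro ⟨l, hl, hl'⟩
      exact this.2.2.1 l hl hl'
    · exact ⟨h.1, h.2.2.1, h.2.2.2⟩
  refine ⟨fun j => a (σ.symm j), p, ?_, ?_⟩
  · intro i hi hi'
    obtain ⟨h1, h2, h3⟩ := key i ⟨hi, hi'⟩
    have hs := ha _ h1.1 h1.2
    refine ⟨hs.1, h2, fun l hl hl' => h3 ⟨l, hl, hl'⟩, fun j hj hjU hj' => ?_⟩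
    obtain ⟨h1', -, -⟩ := key j ⟨hjU, hj'⟩
    exact hs.2.2.2 (σ.symm j) (fun h => hj (σ.symm.injective h)) h1'.1 h1'.2
  · intro i hi hi' j hji hj hj' hfree hU
    obtain ⟨h1, h2, h3⟩ := key i ⟨hi, hi'⟩
    have hFr : Fr (σ.symm i) := ⟨h1, hfree⟩
    have hAl : A (σ.symm i) j := by
      refine Or.inr ⟨h1, ⟨hj, hj'⟩, hU, ?_⟩
      rintro ⟨l, hl, hl'⟩
      exact absurd hl' (hfree l hl)
    have := hp (σ.symm i) j hFr hAl (by rw [Equiv.apply_symm_apply]; exact hji)
    rw [Equiv.apply_symm_apply] at this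
    simp only [w, if_pos hFr] at this
    simp only
    linarith

theorem levels [Fintype V] (tl hd : E → V) (f : V → ℕ) (hf : ∀ a, f (tl a) < f (hd a))
    {k : ℕ} (r : Fin k → V) (U : Fin k → Set V)
    (H : ∀ y, ∃ a : Fin k → E, Slots tl hd r U y a ∧
      ∀ i j, i ≠ j → y ∈ U i → y ≠ r i → y ∈ U j → y ≠ r j → tl (a i) = tl (a j) →
        tl (a i) = r i) (n : ℕ) :
    ∃ (par : V → Fin k → E) (c : V → Fin k → ℤ), ∀ y, f y < n →
      Slots tl hd r U y (par y) ∧ Ineq tl r U y (par y) c := by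
  classical
  induction n with
  | zero =>
    refine ⟨fun y => (H y).choose, fun _ _ => 0, fun y hy => absurd hy (Nat.not_lt_zero _)⟩
  | succ n ih =>
    obtain ⟨par, c, hpc⟩ := ih
    obtain ⟨c', hgen, hc'⟩ := perturb c
    choose a ha hat using H
    choose q p hq hp using fun y => node_step tl hd r U y (a y) (ha y) (hat y) c' hgen
    let par' : V → Fin k → E := fun y => if f y < n then par y else q y
    let c'' : V → Fin k → ℤ := fun y i => if f y < n then ((k : ℤ) + 1) * c' y i else p y i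
    have hkp : (0 : ℤ) < (k : ℤ) + 1 := by positivity
    refine ⟨par', c'', fun y hy => ?_⟩
    by_cases hyn : f y < n
    · have hpar : par' y = par y := by simp [par', hyn]
      rw [hpar]
      refine ⟨(hpc y hyn).1, ?_⟩
      intro i hi hi' j hji hj hj' hfree hU
      have h := (hpc y hyn).2 i hi hi' j hji hj hj' hfree hU
      have h' := hc' _ _ _ _ h
      have htl : f (tl (par y i)) < n := by
        have h1 := hf (par y i)
        rw [((hpc y hyn).1 i hi hi').1] at h1
        omega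
      simp only [c'', hyn, htl, if_true]
      nlinarith
    · have hpar : par' y = q y := by simp [par', hyn]
      rw [hpar]
      refine ⟨hq y, ?_⟩
      intro i hi hi' j hji hj hj' hfree hU
      have h := hp y i hi hi' j hji hj hj' hfree hU
      have htl : f (tl (q y i)) < n := by
        have h1 := hf (q y i)
        rw [((hq y) i hi hi').1] at h1
        omega
      simp only [c'', hyn, htl, if_true, if_false]
      exact h

theorem global [Fintype V] (tl hd : E → V) (f : V → ℕ) (hf : ∀ a, f (tl a) < f (hd a))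
    {k : ℕ} (r : Fin k → V) (U : Fin k → Set V)
    (H : ∀ y, ∃ a : Fin k → E, Slots tl hd r U y a ∧
      ∀ i j, i ≠ j → y ∈ U i → y ≠ r i → y ∈ U j → y ≠ r j → tl (a i) = tl (a j) →
        tl (a i) = r i) :
    ∃ (par : V → Fin k → E) (c : V → Fin k → ℤ), ∀ y,
      Slots tl hd r U y (par y) ∧ Ineq tl r U y (par y) c := by
  obtain ⟨par, c, h⟩ := levels tl hd f hf r U H (∑ v, f v + 1)
  refine ⟨par, c, fun y => h y ?_⟩
  have := Finset.single_le_sum (f := f) (fun _ _ => Nat.zero_le _) (Finset.mem_univ y)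
  omega

/-- arcs of the digraph as a relation -/
def Arc (tl hd : E → V) (F : Set E) (x y : V) : Prop := ∃ a ∈ F, tl a = x ∧ hd a = y

theorem rtg_le {tl hd : E → V} {f : V → ℕ} (hf : ∀ a, f (tl a) < f (hd a)) {F : Set E} {x y : V}
    (h : Relation.ReflTransGen (Arc tl hd F) x y) : f x ≤ f y := by
  induction h with
  | refl => exact le_rfl
  | tail _ h ih =>
    obtain ⟨a, -, h1, h2⟩ := h
    have := hf a
    rw [h1, h2] at this
    omega

theorem tg_lt {tl hd : E → V} {f : V → ℕ} (hf : ∀ a, f (tl a) < f (hd a)) {F : Set E} {x y : V}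
    (h : Relation.TransGen (Arc tl hd F) x y) : f x < f y := by
  induction h with
  | single h =>
    obtain ⟨a, -, h1, h2⟩ := h
    have := hf a
    rw [h1, h2] at this
    omega
  | tail _ h ih =>
    obtain ⟨a, -, h1, h2⟩ := h
    have := hf a
    rw [h1, h2] at this
    omega

theorem walk_append {tl hd : E → V} {x y : V} {l l' : List E} :
    Walk tl hd x (l ++ l') y ↔ ∃ z, Walk tl hd x l z ∧ Walk tl hd z l' y := by
  induction l generalizing x with
  | nil => simp [Walk]
  | cons a l ih =>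
    simp only [List.cons_append, Walk, ih]
    constructor
    · rintro ⟨h, z, h1, h2⟩; exact ⟨z, ⟨h, h1⟩, h2⟩
    · rintro ⟨z, ⟨h, h1⟩, h2⟩; exact ⟨h, z, h1, h2⟩

theorem walk_snoc {tl hd : E → V} {x y : V} {l : List E} {a : E} :
    Walk tl hd x (l ++ [a]) y ↔ Walk tl hd x l (tl a) ∧ hd a = y := by
  rw [walk_append]
  simp only [Walk]
  constructor
  · rintro ⟨z, h, h1, h2⟩; exact ⟨h1 ▸ h, h2⟩
  · rintro ⟨h, h1⟩; exact ⟨_, h, rfl, h1⟩

theorem walk_rtg {tl hd : E → V} {F : Set E} {x y : V} {l : List E} (hl : ∀ a ∈ l, a ∈ F)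
    (h : Walk tl hd x l y) : Relation.ReflTransGen (Arc tl hd F) x y := by
  induction l generalizing x with
  | nil => rw [show x = y from h]
  | cons a l ih =>
    exact Relation.ReflTransGen.head ⟨a, hl a (by simp), h.1, rfl⟩
      (ih (fun b hb => hl b (by simp [hb])) h.2)

theorem rtg_walk {tl hd : E → V} {F : Set E} {x y : V}
    (h : Relation.ReflTransGen (Arc tl hd F) x y) :
    ∃ l : List E, (∀ a ∈ l, a ∈ F) ∧ Walk tl hd x l y := by
  induction h with
  | refl => exact ⟨[], by simp, rfl⟩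
  | tail _ h ih =>
    obtain ⟨l, hl, hw⟩ := ih
    obtain ⟨a, ha, h1, h2⟩ := h
    refine ⟨l ++ [a], ?_, walk_snoc.2 ⟨h1 ▸ hw, h2⟩⟩
    intro b hb
    rw [List.mem_append, List.mem_singleton] at hb
    rcases hb with hb | rfl
    · exact hl b hb
    · exact ha

/-- a node of a walk splits it -/
theorem mem_nodes {tl hd : E → V} {x y z : V} {l : List E} (h : Walk tl hd x l y)
    (hz : z ∈ nodes hd x l) : ∃ l₁ l₂, l = l₁ ++ l₂ ∧ Walk tl hd x l₁ z ∧ Walk tl hd z l₂ y := by
  rcases hz with rfl | ⟨a, ha, rfl⟩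
  · exact ⟨[], l, rfl, rfl, h⟩
  · obtain ⟨l₁, l₂, rfl⟩ := List.append_of_mem ha
    rw [walk_append] at h
    obtain ⟨w, h1, h2⟩ := h
    refine ⟨l₁ ++ [a], l₂, by simp, walk_snoc.2 ⟨h2.1 ▸ h1, rfl⟩, h2.2⟩

theorem last_mem_nodes {tl hd : E → V} {x y : V} {l : List E} (h : Walk tl hd x l y) :
    y ∈ nodes hd x l := by
  rcases List.eq_nil_or_concat l with rfl | ⟨l, a, rfl⟩
  · exact Or.inl (show x = y from h).symm
  · rw [List.concat_eq_append] at h ⊢
    exact Or.inr ⟨a, by simp, (walk_snoc.1 h).2⟩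

theorem walk_le {tl hd : E → V} {f : V → ℕ} (hf : ∀ a, f (tl a) < f (hd a)) {x y : V}
    {l : List E} (h : Walk tl hd x l y) : f x ≤ f y :=
  rtg_le hf (walk_rtg (F := Set.univ) (by simp) h)

/-- convexity for relations -/
theorem conv_mid {tl hd : E → V} {U : Set V} (hU : ConvexNodes tl hd U) {F G : Set E} {x y z : V}
    (h1 : Relation.ReflTransGen (Arc tl hd F) x y) (h2 : Relation.ReflTransGen (Arc tl hd G) y z)
    (hx : x ∈ U) (hz : z ∈ U) : y ∈ U := by
  obtain ⟨l₁, -, hl₁⟩ := rtg_walk h1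
  obtain ⟨l₂, -, hl₂⟩ := rtg_walk h2
  have hw : Walk tl hd x (l₁ ++ l₂) z := walk_append.2 ⟨y, hl₁, hl₂⟩
  apply hU x _ z hw hx hz
  have := last_mem_nodes hl₁
  rcases this with h | ⟨a, ha, h⟩
  · exact Or.inl h
  · exact Or.inr ⟨a, by simp [ha], h⟩

/-- a rank function -/
theorem exists_rank [Finite V] {tl hd : E → V} (h : Acyclic tl hd) :
    ∃ f : V → ℕ, ∀ a, f (tl a) < f (hd a) := by
  classical
  let An : V → Set V := fun v => {x | Relation.ReflTransGen (Arc tl hd Set.univ) x v}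
  refine ⟨fun v => (An v).ncard, fun a => ?_⟩
  apply Set.ncard_lt_ncard _ (Set.toFinite _)
  refine ⟨fun x hx => Relation.ReflTransGen.tail hx ⟨a, trivial, rfl, rfl⟩, fun hsub => ?_⟩
  have h1 : hd a ∈ An (tl a) := hsub (Relation.ReflTransGen.refl)
  obtain ⟨l, -, hl⟩ := rtg_walk h1
  have := h (tl a) (a :: l) ⟨rfl, hl⟩
  simp at this

theorem slots_of_paths [Nonempty E] (tl hd : E → V) (hne : ∀ a, tl a ≠ hd a) {k : ℕ}
    (r : Fin k → V) (U : Fin k → Set V) (hr : ∀ i, r i ∈ U i)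
    (hU : ∀ i, ConvexNodes tl hd (U i)) (y : V) (P : Fin k → List E)
    (hP : ∀ i, y ∈ U i → Walk tl hd (r i) (P i) y)
    (hPd : ∀ i j, i ≠ j → y ∈ U i → y ∈ U j → OpenlyDisjoint hd y (r i) (P i) (r j) (P j)) :
    ∃ a : Fin k → E, Slots tl hd r U y a ∧
      ∀ i j, i ≠ j → y ∈ U i → y ≠ r i → y ∈ U j → y ≠ r j → tl (a i) = tl (a j) →
        tl (a i) = r i := by
  classical
  have hlast : ∀ i, ∃ a : E, y ∈ U i → y ≠ r i → a ∈ P i ∧ tl a ∈ nodes hd (r i) (P i) ∧
      hd a = y := by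
    intro i
    by_cases h : y ∈ U i ∧ y ≠ r i
    · have hw := hP i h.1
      rcases List.eq_nil_or_concat (P i) with hn | ⟨l, a, hl⟩
      · rw [hn] at hw
        exact absurd (show r i = y from hw).symm h.2
      · rw [List.concat_eq_append] at hl
        rw [hl] at hw
        refine ⟨a, fun _ _ => ⟨by rw [hl]; simp, ?_, (walk_snoc.1 hw).2⟩⟩
        rcases last_mem_nodes (walk_snoc.1 hw).1 with h1 | ⟨b, hb, h1⟩
        · exact Or.inl h1
        · exact Or.inr ⟨b, by rw [hl]; simp [hb], h1⟩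
    · exact ⟨Classical.arbitrary E, fun h1 h2 => absurd ⟨h1, h2⟩ h⟩
  choose a ha using hlast
  have hin : ∀ i j, i ≠ j → y ∈ U i → y ≠ r i → y ∈ U j →
      tl (a i) ∈ nodes hd (r j) (P j) → tl (a i) = r i := by
    intro i j hij hi hi' hj hmem
    obtain ⟨h1, h2, h3⟩ := ha i hi hi'
    have hd' := (hPd i j hij hi hj).2
    have : tl (a i) ∈ nodes hd (r i) (P i) ∩ nodes hd (r j) (P j) := ⟨h2, hmem⟩
    rw [hd'] at this
    rcases this with h | h
    · exact absurd (h.trans h3.symm) (hne _)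
    · exact h.1
  refine ⟨a, ?_, ?_⟩
  · intro i hi hi'
    obtain ⟨h1, h2, h3⟩ := ha i hi hi'
    refine ⟨h3, hU i _ _ _ (hP i hi) (hr i) hi h2, ?_, ?_⟩
    · intro l hl hl'
      by_cases hli : l = i
      · subst hli; exact hl'
      · exact (hin i l (fun h => hli h.symm) hi hi' hl (Or.inl hl'.symm)).symm
    · intro j hj hjU hj' haij
      obtain ⟨h1', -, -⟩ := ha j hjU hj'
      exact (hPd i j (fun h => hj h.symm) hi hjU).1 _ h1 (haij ▸ h1')
  · intro i j hij hi hi' hj hj' htt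
    exact hin i j hij hi hi' hj (htt ▸ (ha j hj hj').2.1)

/-- the main construction -/
theorem construct [Finite V] (tl hd : E → V) (hac : Acyclic tl hd) {k : ℕ}
    (r : Fin k → V) (U : Fin k → Set V) (hr : ∀ i, r i ∈ U i)
    (hU : ∀ i, ConvexNodes tl hd (U i))
    (hb : ∀ v, ∃ P : Fin k → List E, (∀ i, v ∈ U i → Walk tl hd (r i) (P i) v) ∧
      ∀ i j, i ≠ j → v ∈ U i → v ∈ U j → OpenlyDisjoint hd v (r i) (P i) (r j) (P j)) :
    ∃ F : Fin k → Set E, (∀ i, IsArborescence tl hd (r i) (U i) (F i)) ∧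
      Independent tl hd r U F := by
  classical
  have := Fintype.ofFinite V
  obtain ⟨f, hf⟩ := exists_rank hac
  have hne : ∀ a, tl a ≠ hd a := fun a h => by have := hf a; rw [h] at this; omega
  rcases isEmpty_or_nonempty E with hE | hE
  · -- no arcs at all
    have hnil : ∀ l : List E, l = [] := fun l => by
      cases l with
      | nil => rfl
      | cons a l => exact hE.elim a
    have hUr : ∀ i, ∀ x ∈ U i, r i = x := by
      intro i x hx
      obtain ⟨P, hP, -⟩ := hb x
      have := hP i hx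
      rw [hnil (P i)] at this
      exact this
    refine ⟨fun _ => ∅, fun i => ⟨hr i, fun a => hE.elim a, fun x hx => ?_⟩, ?_⟩
    · exact ⟨[], ⟨by simp, hUr i x hx⟩, fun l _ => hnil l⟩
    · intro v i j _ hi hj l₁ l₂ _ _ _ _
      rw [hnil l₁, hnil l₂]
      refine ⟨by simp, ?_⟩
      ext z
      simp only [nodes, Set.mem_inter_iff, Set.mem_ofPred_eq, Set.mem_union, Set.mem_singleton_iff,
        List.not_mem_nil, false_and, exists_false, or_false]
      constructor
      · exact fun h => Or.inr h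
      · rintro (rfl | h)
        · exact ⟨(hUr i z hi).symm, (hUr j z hj).symm⟩
        · exact h
  obtain ⟨par, c, hpc⟩ := global tl hd f hf r U (fun y => by
    obtain ⟨P, hP, hPd⟩ := hb y
    exact slots_of_paths tl hd hne r U hr hU y P hP hPd)
  let F : Fin k → Set E := fun i => {a | ∃ y, y ∈ U i ∧ y ≠ r i ∧ par y i = a}
  have hF : ∀ i, ∀ a ∈ F i, hd a ∈ U i ∧ hd a ≠ r i ∧ par (hd a) i = a ∧ tl a ∈ U i := by
    rintro i a ⟨y, hy, hy', rfl⟩
    obtain ⟨h1, h2, -, -⟩ := (hpc y).1 i hy hy'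
    rw [h1]
    exact ⟨hy, hy', rfl, h2⟩
  have hTG : ∀ i, ∀ x y, Relation.TransGen (Arc tl hd (F i)) x y → y ∈ U i ∧ y ≠ r i := by
    intro i x y h
    induction h with
    | single h =>
      obtain ⟨a, ha, -, h2⟩ := h
      rw [← h2]
      exact ⟨(hF i a ha).1, (hF i a ha).2.1⟩
    | tail _ h _ =>
      obtain ⟨a, ha, -, h2⟩ := h
      rw [← h2]
      exact ⟨(hF i a ha).1, (hF i a ha).2.1⟩
  -- the inequality along a path
  have hpot : ∀ i j, i ≠ j → ∀ x, x ≠ r i → x ∈ U i → x ∈ U j → f (r j) ≤ f x →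
      ∀ z, Relation.TransGen (Arc tl hd (F i)) x z → z ∈ U j →
        c z i - c z j < c x i - c x j := by
    intro i j hij x hxi hxUi hxUj hfx z hxz
    have onestep : ∀ a ∈ F i, tl a ≠ r i → tl a ∈ U j → hd a ∈ U j → f (r j) ≤ f (tl a) →
        c (hd a) i - c (hd a) j < c (tl a) i - c (tl a) j := by
      intro a ha hta htj hhj hfa
      obtain ⟨h1, h2, h3, h4⟩ := hF i a ha
      have hrj : hd a ≠ r j := by
        intro h
        have := hf a
        rw [h] at this
        omega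
      have h5 := (hpc (hd a)).2 i h1 h2 j (fun h => hij h.symm) hhj hrj
      have h6 := ((hpc (hd a)).1 i h1 h2).2.2.1
      rw [h3] at h5 h6
      exact h5 (fun l hl hl' => hta (h6 l hl hl').symm) htj
    induction hxz with
    | single h =>
      intro hz
      obtain ⟨a, ha, h1, h2⟩ := h
      subst h1; subst h2
      exact onestep a ha hxi hxUj hz hfx
    | @tail y z hxy h ih =>
      intro hz
      have hyj : y ∈ U j := conv_mid (hU j) hxy.to_reflTransGen
        (Relation.ReflTransGen.single h) hxUj hz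
      have h3 := ih hyj
      have h4 := (hTG i x y hxy).2
      have h5 := tg_lt hf hxy
      obtain ⟨a, ha, h1, h2⟩ := h
      subst h1; subst h2
      have := onestep a ha h4 hyj hz (by omega)
      linarith
  -- a root of another colour is never an inner node
  have hroot : ∀ i j v, v ∈ U i → Relation.TransGen (Arc tl hd (F j)) (r i) v → r i = r j := by
    intro i j v hvi hT
    rw [Relation.TransGen.head'_iff] at hT
    obtain ⟨y, ⟨a, ha, h1, h2⟩, hyv⟩ := hT
    have hyi : y ∈ U i := conv_mid (hU i)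
      (Relation.ReflTransGen.single (⟨a, ha, h1, h2⟩ : Arc tl hd (F j) (r i) y)) hyv (hr i) hvi
    subst h2
    obtain ⟨h3, h4, h5, h6⟩ := hF j a ha
    have h7 := ((hpc (hd a)).1 j h3 h4).2.2.1 i hyi
    rw [h5] at h7
    rw [h7 h1.symm, h1]
  refine ⟨F, fun i => ⟨hr i, fun a ha => ⟨(hF i a ha).2.2.2, (hF i a ha).1⟩, ?_⟩, ?_⟩
  · -- paths in the arborescences
    have hind : ∀ n x, f x = n → x ∈ U i →
        ∃! l : List E, (∀ a ∈ l, a ∈ F i) ∧ Walk tl hd (r i) l x := by
      intro n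
      induction n using Nat.strong_induction_on with
      | _ n ih =>
        intro x hfx hx
        by_cases hxr : x = r i
        · subst hxr
          exact ⟨[], ⟨by simp, rfl⟩, fun l hl => hac _ l hl.2⟩
        · obtain ⟨h1, h2, -, -⟩ := (hpc x).1 i hx hxr
          have h3 := hf (par x i)
          rw [h1] at h3
          obtain ⟨l, ⟨hl, hw⟩, huniq⟩ := ih (f (tl (par x i))) (by omega) _ rfl h2
          refine ⟨l ++ [par x i], ⟨?_, walk_snoc.2 ⟨hw, h1⟩⟩, ?_⟩
          · intro b hb'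
            rw [List.mem_append, List.mem_singleton] at hb'
            rcases hb' with hb' | rfl
            · exact hl b hb'
            · exact ⟨x, hx, hxr, rfl⟩
          · rintro l' ⟨hl', hw'⟩
            rcases List.eq_nil_or_concat l' with rfl | ⟨l'', b, rfl⟩
            · exact absurd (show r i = x from hw').symm hxr
            · rw [List.concat_eq_append] at hw' hl' ⊢
              obtain ⟨hw1, hw2⟩ := walk_snoc.1 hw'
              have hbF : b ∈ F i := hl' b (by simp)
              have hb3 := (hF i b hbF).2.2.1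
              rw [hw2] at hb3
              subst hb3
              rw [huniq l'' ⟨fun a ha => hl' a (by simp [ha]), hw1⟩]
    exact fun x hx => hind _ x rfl hx
  · -- independence
    intro v i j hij hi hj l₁ l₂ hl₁ hw₁ hl₂ hw₂
    have hnodes : ∀ x, x ∈ nodes hd (r i) l₁ → x ∈ nodes hd (r j) l₂ → x ≠ v →
        x = r i ∧ x = r j := by
      intro x hx₁ hx₂ hxv
      obtain ⟨l₁a, l₁b, rfl, h1a, h1b⟩ := mem_nodes hw₁ hx₁
      obtain ⟨l₂a, l₂b, rfl, h2a, h2b⟩ := mem_nodes hw₂ hx₂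
      have g1a := walk_rtg (F := F i) (fun a ha => hl₁ a (by simp [ha])) h1a
      have g1b := walk_rtg (F := F i) (fun a ha => hl₁ a (by simp [ha])) h1b
      have g2a := walk_rtg (F := F j) (fun a ha => hl₂ a (by simp [ha])) h2a
      have g2b := walk_rtg (F := F j) (fun a ha => hl₂ a (by simp [ha])) h2b
      have hxi : x ∈ U i := conv_mid (hU i) g1a g1b (hr i) hi
      have hxj : x ∈ U j := conv_mid (hU j) g2a g2b (hr j) hj
      have t1 : Relation.TransGen (Arc tl hd (F i)) x v := by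
        rcases (Relation.reflTransGen_iff_eq_or_transGen.1 g1b) with h | h
        · exact absurd h.symm hxv
        · exact h
      have t2 : Relation.TransGen (Arc tl hd (F j)) x v := by
        rcases (Relation.reflTransGen_iff_eq_or_transGen.1 g2b) with h | h
        · exact absurd h.symm hxv
        · exact h
      by_cases h1 : x = r i
      · refine ⟨h1, ?_⟩
        rw [h1] at t2
        rw [h1]
        exact hroot i j v hi t2
      · by_cases h2 : x = r j
        · refine ⟨?_, h2⟩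
          rw [h2] at t1
          rw [h2]
          exact hroot j i v hj t1
        · exfalso
          have p1 := hpot i j hij x h1 hxi hxj (rtg_le hf g2a) v t1 hj
          have p2 := hpot j i (fun h => hij h.symm) x h2 hxj hxi (rtg_le hf g1a) v t2 hi
          linarith
    refine ⟨?_, ?_⟩
    · intro a ha₁ ha₂
      have hF1 := hF i a (hl₁ a ha₁)
      have hF2 := hF j a (hl₂ a ha₂)
      by_cases hv : hd a = v
      · rw [hv] at hF1 hF2
        have := ((hpc v).1 i hi hF1.2.1).2.2.2 j (fun h => hij h.symm) hj hF2.2.1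
        exact this (hF1.2.2.1.trans hF2.2.2.1.symm)
      · have := hnodes (hd a) (Or.inr ⟨a, ha₁, rfl⟩) (Or.inr ⟨a, ha₂, rfl⟩) hv
        exact hF1.2.1 this.1
    · ext x
      constructor
      · rintro ⟨h1, h2⟩
        by_cases hv : x = v
        · exact Or.inl hv
        · exact Or.inr (hnodes x h1 h2 hv)
      · rintro (rfl | ⟨h1, h2⟩)
        · exact ⟨last_mem_nodes hw₁, last_mem_nodes hw₂⟩
        · exact ⟨Or.inl h1, Or.inl h2⟩

end Pool.Agent.TH944.Arb
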