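import Pool.Agent.TH944.Fan

/-! Edge colourings of wreath products: the connected case. -/

set_option autoImplicit false

namespace Pool.Agent.TH944.Wr

open Finset Classical

section circ

variable {W : Type*} [Fintype W] (r : Setoid W)

/-- The size of the class of `x`. -/
noncomputable def cs (x : W) : ℕ := (univ.filter (fun y => r x y)).card

theorem cs_eq {x y : W} (h : r x y) : cs r x = cs r y := by
  unfold cs
  congr 1
  ext z
  simp only [mem_filter, mem_univ, true_and]
  exact ⟨fun h1 => r.trans (r.symm h) h1, fun h1 => r.trans h h1⟩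

theorem cs_pos (x : W) : 0 < cs r x :=
  Finset.card_pos.2 ⟨x, by simp⟩

theorem exists_idx : ∃ idx : W → ℕ, (∀ x, idx x < cs r x) ∧
    ∀ x y, r x y → idx x = idx y → x = y := by
  have o : W ≃ Fin (Fintype.card W) := Fintype.equivFin W
  refine ⟨fun x => (univ.filter (fun y => r x y ∧ o y < o x)).card, ?_, ?_⟩
  · intro x
    apply Finset.card_lt_card
    rw [Finset.ssubset_iff_of_subset]
    · refine ⟨x, by simp, by simp⟩
    · intro y hy
      rw [mem_filter] at hy ⊢
      exact ⟨hy.1, hy.2.1⟩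
  · have key : ∀ x y, r x y → o x < o y →
        (univ.filter (fun z => r x z ∧ o z < o x)).card <
          (univ.filter (fun z => r y z ∧ o z < o y)).card := by
      intro x y hxy hlt
      apply Finset.card_lt_card
      rw [Finset.ssubset_iff_of_subset]
      · refine ⟨x, ?_, by simp⟩
        rw [mem_filter]
        exact ⟨mem_univ _, r.symm hxy, hlt⟩
      · intro z hz
        rw [mem_filter] at hz ⊢
        exact ⟨hz.1, r.trans (r.symm hxy) hz.2.1, hz.2.2.trans hlt⟩
    intro x y hxy heq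
    simp only at heq
    rcases lt_trichotomy (o x) (o y) with h | h | h
    · have := key x y hxy h
      omega
    · exact o.injective h
    · have := key y x (r.symm hxy) h
      omega

/-- A regular graph on every class and directed colours for the remaining pairs. -/
theorem exists_circ (h : ℕ) (hh : ∀ x, 2 * h + 1 ≤ cs r x) :
    ∃ (R : SimpleGraph W) (p : W → W → ℕ),
      (∀ x y, R.Adj x y → r x y) ∧ (∀ x, R.degree x + 2 * h + 1 ≤ cs r x) ∧
      (∀ x y, r x y → x ≠ y → ¬ R.Adj x y → p x y < 2 * h) ∧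
      (∀ x y y', r x y → x ≠ y → ¬ R.Adj x y → r x y' → x ≠ y' → ¬ R.Adj x y' →
        p x y = p x y' → y = y') ∧
      (∀ x y y', r x y → x ≠ y → ¬ R.Adj x y → r x y' → x ≠ y' → ¬ R.Adj x y' →
        p y x = p y' x → y = y') := by
  obtain ⟨idx, hidx, hinj⟩ := exists_idx r
  set δ : W → W → ℕ := fun x y =>
    if idx x ≤ idx y then idx y - idx x else idx y + cs r x - idx x with hδ
  have hδlt : ∀ x y, r x y → δ x y < cs r x := by
    intro x y hxy
    have h1 := hidx x
    have h2 := hidx y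
    have h3 := cs_eq r hxy
    simp only [hδ]
    split_ifs <;> omega
  have hδsymm : ∀ x y, r x y → x ≠ y → δ x y + δ y x = cs r x := by
    intro x y hxy hne
    have h1 := hidx x
    have h2 := hidx y
    have h3 := cs_eq r hxy
    have h4 : idx x ≠ idx y := fun h => hne (hinj x y hxy h)
    simp only [hδ]
    split_ifs <;> omega
  have hδpos : ∀ x y, r x y → x ≠ y → 0 < δ x y := by
    intro x y hxy hne
    have h1 := hidx x
    have h2 := hidx y
    have h3 := cs_eq r hxy
    have h4 : idx x ≠ idx y := fun h => hne (hinj x y hxy h)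
    simp only [hδ]
    split_ifs <;> omega
  have hδinj : ∀ x y y', r x y → r x y' → δ x y = δ x y' → y = y' := by
    intro x y y' hxy hxy' heq
    have h1 := hidx x
    have h2 := hidx y
    have h2' := hidx y'
    have h3 := cs_eq r hxy
    have h3' := cs_eq r hxy'
    apply hinj y y' (r.trans (r.symm hxy) hxy')
    simp only [hδ] at heq
    split_ifs at heq <;> omega
  have hδinj' : ∀ x y y', r x y → r x y' → δ y x = δ y' x → y = y' := by
    intro x y y' hxy hxy' heq
    have h1 := hidx x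
    have h2 := hidx y
    have h2' := hidx y'
    have h3 := cs_eq r hxy
    have h3' := cs_eq r hxy'
    apply hinj y y' (r.trans (r.symm hxy) hxy')
    simp only [hδ] at heq
    split_ifs at heq <;> omega
  obtain ⟨R, hR⟩ : ∃ R : SimpleGraph W, ∀ x y,
      R.Adj x y ↔ (r x y ∧ x ≠ y ∧ h < δ x y ∧ δ x y + h < cs r x) := by
    refine ⟨{ Adj := fun x y => r x y ∧ x ≠ y ∧ h < δ x y ∧ δ x y + h < cs r x
              symm := ⟨?_⟩
              loopless := ⟨fun x h => h.2.1 rfl⟩ }, fun x y => Iff.rfl⟩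
    rintro x y ⟨h1, h2, h3, h4⟩
    have h5 := hδsymm x y h1 h2
    have h6 := cs_eq r h1
    exact ⟨r.symm h1, h2.symm, by omega, by omega⟩
  refine ⟨R, fun x y => if δ x y ≤ h then δ x y - 1 else δ x y + 2 * h - cs r x, ?_, ?_, ?_, ?_, ?_⟩
  · intro x y hxy
    exact ((hR x y).1 hxy).1
  · intro x
    have h1 : R.degree x ≤ (Finset.Ioo h (cs r x - h)).card := by
      rw [← SimpleGraph.card_neighborFinset_eq_degree]
      refine Finset.card_le_card_of_injOn (fun y => δ x y) ?_ ?_
      · intro y hy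
        have hy' : R.Adj x y := by
          have : y ∈ R.neighborFinset x := hy
          rwa [SimpleGraph.mem_neighborFinset] at this
        have := (hR x y).1 hy'
        simp only [Finset.coe_Ioo, Set.mem_Ioo]
        omega
      · intro y hy y' hy' heq
        have h1 : R.Adj x y := by
          have : y ∈ R.neighborFinset x := hy
          rwa [SimpleGraph.mem_neighborFinset] at this
        have h2 : R.Adj x y' := by
          have : y' ∈ R.neighborFinset x := hy'
          rwa [SimpleGraph.mem_neighborFinset] at this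
        exact hδinj x y y' ((hR x y).1 h1).1 ((hR x y').1 h2).1 heq
    rw [Nat.card_Ioo] at h1
    have := hh x
    omega
  · intro x y hxy hne hnR
    rw [hR] at hnR
    have h1 := hδpos x y hxy hne
    have h2 := hδlt x y hxy
    have h3 := hh x
    have h4 : ¬ (h < δ x y ∧ δ x y + h < cs r x) := fun h5 => hnR ⟨hxy, hne, h5⟩
    simp only
    split_ifs <;> omega
  · intro x y y' hxy hne hnR hxy' hne' hnR' heq
    rw [hR] at hnR hnR'
    have h1 := hδpos x y hxy hne
    have h2 := hδlt x y hxy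
    have h3 := hh x
    have h4 : ¬ (h < δ x y ∧ δ x y + h < cs r x) := fun h5 => hnR ⟨hxy, hne, h5⟩
    have h1' := hδpos x y' hxy' hne'
    have h2' := hδlt x y' hxy'
    have h4' : ¬ (h < δ x y' ∧ δ x y' + h < cs r x) := fun h5 => hnR' ⟨hxy', hne', h5⟩
    apply hδinj x y y' hxy hxy'
    simp only at heq
    split_ifs at heq <;> omega
  · intro x y y' hxy hne hnR hxy' hne' hnR' heq
    rw [hR] at hnR hnR'
    have h1 := hδpos x y hxy hne
    have h2 := hδlt x y hxy
    have h3 := hh x
    have h4 : ¬ (h < δ x y ∧ δ x y + h < cs r x) := fun h5 => hnR ⟨hxy, hne, h5⟩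
    have h1' := hδpos x y' hxy' hne'
    have h2' := hδlt x y' hxy'
    have h4' : ¬ (h < δ x y' ∧ δ x y' + h < cs r x) := fun h5 => hnR' ⟨hxy', hne', h5⟩
    have h5 := hδsymm x y hxy hne
    have h5' := hδsymm x y' hxy' hne'
    have h6 := cs_eq r hxy
    have h6' := cs_eq r hxy'
    apply hδinj' x y y' hxy hxy'
    simp only at heq
    split_ifs at heq <;> omega

/-- The complete graph on every class. -/
def KR : SimpleGraph W where
  Adj x y := r x y ∧ x ≠ y
  symm := ⟨fun _ _ h => ⟨r.symm h.1, h.2.symm⟩⟩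
  loopless := ⟨fun _ h => h.2 rfl⟩

theorem KR_degree (x : W) : (KR r).degree x + 1 ≤ cs r x := by
  rw [← SimpleGraph.card_neighborFinset_eq_degree]
  apply Finset.card_lt_card
  rw [Finset.ssubset_iff_of_subset]
  · exact ⟨x, by simp, by simp⟩
  · intro y hy
    rw [SimpleGraph.mem_neighborFinset] at hy
    simpa using hy.1

end circ

section layers

variable {W ι : Type*} [Fintype W] [Fintype ι] (L : ι → SimpleGraph W)

/-- The edges of the multigraph with layers `L`. -/
noncomputable def SQ : Finset (Sym2 W × ι) := univ.filter (fun e => e.1 ∈ (L e.2).edgeSet)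

theorem mem_SQ {z : Sym2 W} {t : ι} : (z, t) ∈ SQ L ↔ z ∈ (L t).edgeSet := by
  simp [SQ]

theorem mem_SQ' {x y : W} {t : ι} : (s(x, y), t) ∈ SQ L ↔ (L t).Adj x y := by
  simp [SQ]

theorem SQ_not_diag : ∀ e ∈ SQ L, ¬ (Prod.fst e : Sym2 W).IsDiag := by
  rintro ⟨z, t⟩ h
  rw [mem_SQ] at h
  exact SimpleGraph.not_isDiag_of_mem_edgeSet _ h

theorem dg_SQ (x : W) : Fan.dg Prod.fst (SQ L) x ≤ ∑ t, (L t).degree x := by
  rw [Fan.dg, Finset.card_eq_sum_card_fiberwise (f := Prod.snd) (t := univ)
    (fun _ _ => by simp)]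
  refine Finset.sum_le_sum ?_
  intro t _
  rw [← SimpleGraph.card_incidenceFinset_eq_degree]
  refine Finset.card_le_card_of_injOn Prod.fst ?_ ?_
  · rintro ⟨z, t'⟩ he
    have he' := Finset.mem_coe.1 he
    rw [mem_filter, mem_filter, mem_SQ] at he'
    obtain ⟨⟨h1, h2⟩, h3⟩ := he'
    simp only at h2 h3
    subst h3
    rw [Finset.mem_coe, SimpleGraph.mem_incidenceFinset]
    exact ⟨h1, h2⟩
  · rintro ⟨z, t1⟩ he ⟨z', t2⟩ he' heq
    have h1 := (mem_filter.1 (Finset.mem_coe.1 he)).2
    have h2 := (mem_filter.1 (Finset.mem_coe.1 he')).2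
    simp only at h1 h2 heq
    rw [heq, h1, h2]

omit [Fintype W] in
theorem mu_le (S : Finset (Sym2 W × ι)) (x y : W) :
    Fan.mu Prod.fst S x y ≤ Fintype.card ι := by
  rw [Fan.mu, ← Finset.card_univ]
  refine Finset.card_le_card_of_injOn Prod.snd (fun _ _ => by simp) ?_
  rintro ⟨z, t1⟩ he ⟨z', t2⟩ he' heq
  have h1 := (mem_filter.1 (Finset.mem_coe.1 he)).2
  have h2 := (mem_filter.1 (Finset.mem_coe.1 he')).2
  simp only at h1 h2 heq
  rw [heq, h1, h2]

theorem adj_of_mu_eq {S : Finset (Sym2 W × ι)} (hS : S ⊆ SQ L) {x y : W}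
    (h : Fintype.card ι ≤ Fan.mu Prod.fst S x y) (t : ι) : (L t).Adj x y := by
  by_contra hcon
  have h1 : Fan.mu Prod.fst S x y ≤ (univ.erase t).card := by
    rw [Fan.mu]
    refine Finset.card_le_card_of_injOn Prod.snd ?_ ?_
    · rintro ⟨z, t'⟩ he
      have he' := mem_filter.1 (Finset.mem_coe.1 he)
      simp only at he'
      obtain ⟨h2, rfl⟩ := he'
      have h3 := (mem_SQ' L).1 (hS h2)
      rw [Finset.mem_coe, mem_erase]
      refine ⟨?_, mem_univ _⟩
      rintro rfl
      exact hcon h3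
    · rintro ⟨z, t1⟩ he ⟨z', t2⟩ he' heq
      have h1 := (mem_filter.1 (Finset.mem_coe.1 he)).2
      have h2 := (mem_filter.1 (Finset.mem_coe.1 he')).2
      simp only at h1 h2 heq
      rw [heq, h1, h2]
  have h2 := Finset.card_erase_lt_of_mem (mem_univ t)
  rw [Finset.card_univ] at h2
  omega

end layers

section quotient

variable {W : Type*} [Fintype W]

/-- The layers of the quotient multigraph. -/
def Lay (m : ℕ) (G' R : SimpleGraph W) (r : Setoid W) : Option (Fin (m + 1)) → SimpleGraph W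
  | none => G'
  | some i => if i = 0 then R else KR r

omit [Fintype W] in
theorem degree_congr {G H : SimpleGraph W} {x : W} [i1 : Fintype (G.neighborSet x)]
    [i2 : Fintype (H.neighborSet x)] (h : G = H) : G.degree x = H.degree x := by
  subst h
  exact congrArg (fun i => @SimpleGraph.degree W G x i) (Subsingleton.elim i1 i2)

theorem Lay_degree (m : ℕ) (G' R : SimpleGraph W) (r : Setoid W) (x : W) :
    ∑ t, (Lay m G' R r t).degree x = G'.degree x + (R.degree x + m * (KR r).degree x) := by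
  have e2 : Lay m G' R r (some 0) = R := by simp [Lay]
  have e3 : ∀ i : Fin m, Lay m G' R r (some i.succ) = KR r := by
    intro i
    simp [Lay, Fin.succ_ne_zero]
  rw [Fintype.sum_option, Fin.sum_univ_succ]
  refine congrArg₂ _ (degree_congr rfl) (congrArg₂ _ (degree_congr e2) ?_)
  have h4 : ∑ i : Fin m, (KR r).degree x = m * (KR r).degree x := by
    rw [Finset.sum_const, Finset.card_univ, Fintype.card_fin, smul_eq_mul]
  rw [← h4]
  exact Finset.sum_congr rfl (fun i _ => degree_congr (e3 i))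

theorem dg_bound (m D h : ℕ) (G' R : SimpleGraph W) (r : Setoid W)
    (hD : ∀ x, G'.degree x + (m + 1) * cs r x ≤ D)
    (hRd : ∀ x, R.degree x + 2 * h + 1 ≤ cs r x) (x : W) :
    Fan.dg Prod.fst (SQ (Lay m G' R r)) x + (m + 1) + 2 * h ≤ D := by
  have h1 := dg_SQ (Lay m G' R r) x
  rw [Lay_degree] at h1
  have h2 := hD x
  have h3 := hRd x
  have h4 := KR_degree r x
  have h5 : m * ((KR r).degree x + 1) ≤ m * cs r x := Nat.mul_le_mul_left m h4
  rw [Nat.mul_add] at h5
  rw [Nat.add_mul] at h2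
  omega

theorem quotient_colouring (m D h : ℕ) (G' R : SimpleGraph W) (r : Setoid W)
    (hE : ∀ x x' y, r x x' → G'.Adj x y → ∃ y', r y y' ∧ G'.Adj x' y')
    (hD : ∀ x, G'.degree x + (m + 1) * cs r x ≤ D)
    (hRr : ∀ x y, R.Adj x y → r x y)
    (hRd : ∀ x, R.degree x + 2 * h + 1 ≤ cs r x)
    (x0 : W) (hx0 : cs r x0 ≤ 2 * h + 2)
    (hconn : ∀ x, Relation.ReflTransGen (fun a b => G'.Adj a b ∨ r a b) x x0) :
    ∃ c : Sym2 W × Option (Fin (m + 1)) → Fin (D - 2 * h),
      Fan.Proper Prod.fst (SQ (Lay m G' R r)) c := by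
  have hdb := dg_bound m D h G' R r hD hRd
  by_contra hno
  have : Nonempty (Fin (D - 2 * h)) := ⟨⟨0, by have := hdb x0; omega⟩⟩
  obtain ⟨S, hSsub, hSne, hS⟩ := Fan.exists_critical (K := Fin (D - 2 * h)) (SQ (Lay m G' R r))
    (SQ_not_diag _) (by
      intro x
      rw [Fintype.card_fin]
      have := hdb x
      omega) hno
  -- the key consequence
  have hA : ∀ u, (∃ e ∈ S, u ∈ (Prod.fst e : Sym2 W)) → ∃ y1 y2, y1 ≠ y2 ∧
      (∀ t, (Lay m G' R r t).Adj u y1) ∧ (∀ t, (Lay m G' R r t).Adj u y2) ∧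
      (∀ e ∈ SQ (Lay m G' R r), y1 ∈ (Prod.fst e : Sym2 W) → e ∈ S) := by
    intro u hu
    obtain ⟨Y, hY⟩ := hS u hu
    rw [Fintype.card_fin] at hY
    have hdgS : ∀ y, Fan.dg Prod.fst S y ≤ Fan.dg Prod.fst (SQ (Lay m G' R r)) y := fun y =>
      Finset.card_le_card (Finset.filter_subset_filter _ hSsub)
    have hcardι : Fintype.card (Option (Fin (m + 1))) = m + 2 := by simp
    have hmu : ∀ y, Fan.mu Prod.fst S u y ≤ m + 2 := by
      intro y
      have := mu_le S u y
      omega
    set Y' := Y.filter (fun y =>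
      D - 2 * h + 1 ≤ Fan.dg Prod.fst S y + Fan.mu Prod.fst S u y) with hY'
    have hsum : ∑ y ∈ Y, (Fan.dg Prod.fst S y + Fan.mu Prod.fst S u y) ≤
        ∑ y ∈ Y, ((D - 2 * h) + if y ∈ Y' then 1 else 0) := by
      refine Finset.sum_le_sum ?_
      intro y hy
      have h1 := hdb y
      have h2 := hdgS y
      have h3 := hmu y
      split_ifs with h4
      · omega
      · have h5 : ¬ (D - 2 * h + 1 ≤ Fan.dg Prod.fst S y + Fan.mu Prod.fst S u y) :=
          fun h6 => h4 (mem_filter.2 ⟨hy, h6⟩)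
        omega
    have hr : ∑ y ∈ Y, ((D - 2 * h) + if y ∈ Y' then 1 else 0) =
        Y.card * (D - 2 * h) + Y'.card := by
      rw [Finset.sum_add_distrib, Finset.sum_const, smul_eq_mul, Finset.sum_ite_mem,
        Finset.sum_const, smul_eq_mul, mul_one,
        Finset.inter_eq_right.2 (Finset.filter_subset _ _)]
    rw [hr] at hsum
    have hcard : 1 < Y'.card := by
      have h6 : Y.card * (D - 2 * h) = (D - 2 * h) * Y.card := mul_comm _ _
      omega
    obtain ⟨y1, hy1, y2, hy2, hne⟩ := Finset.one_lt_card.1 hcard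
    have hgood : ∀ y ∈ Y', (∀ t, (Lay m G' R r t).Adj u y) ∧
        (∀ e ∈ SQ (Lay m G' R r), y ∈ (Prod.fst e : Sym2 W) → e ∈ S) := by
      intro y hy
      have h0 := (mem_filter.1 hy).2
      have h1 := hdb y
      have h2 := hdgS y
      have h3 := hmu y
      refine ⟨adj_of_mu_eq _ hSsub (by omega), ?_⟩
      intro e he hye
      have h4 : S.filter (fun e => y ∈ (Prod.fst e : Sym2 W)) =
          (SQ (Lay m G' R r)).filter (fun e => y ∈ (Prod.fst e : Sym2 W)) := by
        apply Finset.eq_of_subset_of_card_le (Finset.filter_subset_filter _ hSsub)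
        change Fan.dg Prod.fst (SQ (Lay m G' R r)) y ≤ Fan.dg Prod.fst S y
        omega
      have h5 : e ∈ (SQ (Lay m G' R r)).filter (fun e => y ∈ (Prod.fst e : Sym2 W)) :=
        mem_filter.2 ⟨he, hye⟩
      rw [← h4] at h5
      exact (mem_filter.1 h5).1
    exact ⟨y1, y2, hne, (hgood y1 hy1).1, (hgood y2 hy2).1, (hgood y1 hy1).2⟩
  -- propagation
  have hprop : ∀ w w', (G'.Adj w w' ∨ r w w') →
      (∃ z, (∃ e ∈ S, z ∈ (Prod.fst e : Sym2 W)) ∧ r z w) →
      (∃ z, (∃ e ∈ S, z ∈ (Prod.fst e : Sym2 W)) ∧ r z w') := by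
    rintro w w' hww ⟨z, hz, hzw⟩
    rcases hww with hww | hww
    · obtain ⟨y, _, _, hy, _, hfull⟩ := hA z hz
      have hzy : r z y := by
        have := hy (some 0)
        simp only [Lay, if_true] at this
        exact hRr _ _ this
      obtain ⟨y', hy', hadj⟩ := hE w y w' (r.trans (r.symm hzw) hzy) hww
      refine ⟨y', ⟨(s(y, y'), none), hfull _ ?_ (by simp), by simp⟩, r.symm hy'⟩
      rw [mem_SQ']
      exact hadj
    · exact ⟨z, hz, r.trans hzw hww⟩
  have hall : ∀ w w', Relation.ReflTransGen (fun a b => G'.Adj a b ∨ r a b) w w' →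
      (∃ z, (∃ e ∈ S, z ∈ (Prod.fst e : Sym2 W)) ∧ r z w) →
      (∃ z, (∃ e ∈ S, z ∈ (Prod.fst e : Sym2 W)) ∧ r z w') := by
    intro w w' hww
    induction hww with
    | refl => exact id
    | tail _ h2 ih => exact fun h3 => hprop _ _ h2 (ih h3)
  obtain ⟨e, he⟩ := hSne
  obtain ⟨⟨a, b⟩, t⟩ := e
  obtain ⟨z, hz, hzx⟩ := hall a x0 (hconn a)
    ⟨a, ⟨(s(a, b), t), he, by simp⟩, r.refl a⟩
  obtain ⟨y1, y2, hne, hy1, hy2, _⟩ := hA z hz
  have h1 : R.Adj z y1 := by
    have := hy1 (some 0)
    simpa only [Lay, if_true] using this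
  have h2 : R.Adj z y2 := by
    have := hy2 (some 0)
    simpa only [Lay, if_true] using this
  have h3 : 1 < R.degree z := by
    rw [← SimpleGraph.card_neighborFinset_eq_degree]
    exact Finset.one_lt_card.2 ⟨y1, by simpa using h1, y2, by simpa using h2, hne⟩
  have h4 := hRd z
  have h5 := cs_eq r hzx
  omega

end quotient

section connected

variable {V W : Type*} [Fintype V] [Fintype W]

/-- Adjacency in the wreath product, the orbits being the classes of `r`. -/
def HA (G : SimpleGraph V) (G' : SimpleGraph W) (r : Setoid W) (p q : V × W) : Prop :=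
  (p.1 = q.1 ∧ G'.Adj p.2 q.2) ∨ (G.Adj p.1 q.1 ∧ r p.2 q.2)

theorem connected_case (m D : ℕ) (G : SimpleGraph V) (g : V → V → Fin (m + 1))
    (hgs : ∀ a b, g a b = g b a)
    (hg : ∀ a b b', G.Adj a b → G.Adj a b' → b ≠ b' → g a b ≠ g a b')
    (G' : SimpleGraph W) (r : Setoid W)
    (hE : ∀ x x' y, r x x' → G'.Adj x y → ∃ y', r y y' ∧ G'.Adj x' y')
    (hD : ∀ x, G'.degree x + (m + 1) * cs r x ≤ D)
    (hne : Nonempty W)
    (hconn : ∀ x y, Relation.ReflTransGen (fun a b => G'.Adj a b ∨ r a b) x y) :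
    ∃ col : V × W → V × W → ℕ,
      (∀ p q, HA G G' r p q → col p q = col q p ∧ col p q < D) ∧
      ∀ p q q', HA G G' r p q → HA G G' r p q' → q ≠ q' → col p q ≠ col p q' := by
  obtain ⟨x0, -, hx0⟩ := Finset.exists_min_image (univ : Finset W) (cs r)
    ⟨Classical.choice hne, mem_univ _⟩
  obtain ⟨h, hh0⟩ : ∃ h, h = (cs r x0 - 1) / 2 := ⟨_, rfl⟩
  have hh : ∀ x, 2 * h + 1 ≤ cs r x := by
    intro x
    have h1 := hx0 x (mem_univ _)
    have h2 := cs_pos r x0
    omega
  obtain ⟨R, pp, hRr, hRd, hp1, hp2, hp3⟩ := exists_circ r h hh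
  have hdb := dg_bound m D h G' R r hD hRd
  obtain ⟨c, hc⟩ := quotient_colouring m D h G' R r hE hD hRr hRd x0 (by omega)
    (fun x => hconn x x0)
  have hlam : ∀ x, ∃ lam : Fin (m + 1) → Fin (D - 2 * h), Function.Injective lam ∧
      ∀ i, Fan.Miss Prod.fst (SQ (Lay m G' R r)) c x (lam i) := by
    intro x
    have h1 : (univ : Finset (Fin (D - 2 * h))) ⊆
        univ.filter (fun a => Fan.Miss Prod.fst (SQ (Lay m G' R r)) c x a) ∪
          ((SQ (Lay m G' R r)).filter (fun e => x ∈ (Prod.fst e : Sym2 W))).image c := by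
      intro a _
      rw [Finset.mem_union]
      by_cases h2 : Fan.Miss Prod.fst (SQ (Lay m G' R r)) c x a
      · left
        exact Finset.mem_filter.2 ⟨Finset.mem_univ _, h2⟩
      · right
        rw [Fan.Miss] at h2
        push Not at h2
        obtain ⟨e, he, hu, hca⟩ := h2
        exact Finset.mem_image.2 ⟨e, Finset.mem_filter.2 ⟨he, hu⟩, hca⟩
    have h2 := (Finset.card_le_card h1).trans (Finset.card_union_le _ _)
    have h3 : (((SQ (Lay m G' R r)).filter (fun e => x ∈ (Prod.fst e : Sym2 W))).image c).card ≤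
        Fan.dg Prod.fst (SQ (Lay m G' R r)) x := Finset.card_image_le
    rw [Finset.card_univ, Fintype.card_fin] at h2
    have h4 := hdb x
    have h5 : Fintype.card (Fin (m + 1)) ≤ Fintype.card
        {a // Fan.Miss Prod.fst (SQ (Lay m G' R r)) c x a} := by
      rw [Fintype.card_subtype, Fintype.card_fin]
      omega
    obtain ⟨emb⟩ := Function.Embedding.nonempty_of_card_le h5
    exact ⟨fun i => (emb i).1, fun i j hij => emb.injective (Subtype.ext hij),
      fun i => (emb i).2⟩
  choose lam hlam1 hlam2 using hlam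
  have o : V ≃ Fin (Fintype.card V) := Fintype.equivFin V
  set col : V × W → V × W → ℕ := fun p q =>
    if p.1 = q.1 then (c (s(p.2, q.2), none) : ℕ)
    else if p.2 = q.2 then (lam p.2 (g p.1 q.1) : ℕ)
    else if g p.1 q.1 ≠ 0 ∨ R.Adj p.2 q.2 then (c (s(p.2, q.2), some (g p.1 q.1)) : ℕ)
    else if o p.1 < o q.1 then D - 2 * h + pp p.2 q.2 else D - 2 * h + pp q.2 p.2 with hcol
  -- the three kinds of edges
  have hcases : ∀ p q, HA G G' r p q →
      (∃ e ∈ SQ (Lay m G' R r), p.2 ∈ (Prod.fst e : Sym2 W) ∧ col p q = (c e : ℕ) ∧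
        e = (s(p.2, q.2), if p.1 = q.1 then none else some (g p.1 q.1)) ∧
        (p.1 ≠ q.1 → G.Adj p.1 q.1)) ∨
      (G.Adj p.1 q.1 ∧ p.2 = q.2 ∧ col p q = (lam p.2 (g p.1 q.1) : ℕ)) ∨
      (G.Adj p.1 q.1 ∧ p.2 ≠ q.2 ∧ r p.2 q.2 ∧ ¬ R.Adj p.2 q.2 ∧ g p.1 q.1 = 0 ∧
        col p q = if o p.1 < o q.1 then D - 2 * h + pp p.2 q.2
          else D - 2 * h + pp q.2 p.2) := by
    intro p q hpq
    rcases hpq with ⟨h1, h2⟩ | ⟨h1, h2⟩
    · left
      refine ⟨(s(p.2, q.2), none), ?_, by simp, ?_, ?_, fun h => absurd h1 h⟩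
      · rw [mem_SQ']
        exact h2
      · simp only [hcol, h1, if_true]
      · rw [if_pos h1]
    · have hne1 : p.1 ≠ q.1 := h1.ne
      by_cases h3 : p.2 = q.2
      · right; left
        refine ⟨h1, h3, ?_⟩
        simp only [hcol]
        rw [if_neg hne1, if_pos h3]
      · by_cases h4 : g p.1 q.1 ≠ 0 ∨ R.Adj p.2 q.2
        · left
          refine ⟨(s(p.2, q.2), some (g p.1 q.1)), ?_, by simp, ?_, ?_, fun _ => h1⟩
          · rw [mem_SQ']
            by_cases h5 : g p.1 q.1 = 0
            · have h6 : R.Adj p.2 q.2 := h4.resolve_left (fun h => h h5)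
              simpa [Lay, h5] using h6
            · have h6 : (KR r).Adj p.2 q.2 := ⟨h2, h3⟩
              simpa [Lay, h5] using h6
          · simp only [hcol]
            rw [if_neg hne1, if_neg h3, if_pos h4]
          · rw [if_neg hne1]
        · right; right
          have h5 : g p.1 q.1 = 0 := by
            by_contra h6
            exact h4 (Or.inl h6)
          have h6 : ¬ R.Adj p.2 q.2 := fun h7 => h4 (Or.inr h7)
          refine ⟨h1, h3, h2, h6, h5, ?_⟩
          simp only [hcol]
          rw [if_neg hne1, if_neg h3, if_neg h4]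
  have hDh : 2 * h ≤ D := by
    have := hdb x0
    omega
  refine ⟨col, ?_, ?_⟩
  · intro p q hpq
    constructor
    · simp only [hcol]
      by_cases h1 : p.1 = q.1
      · rw [if_pos h1, if_pos h1.symm, Sym2.eq_swap]
      · rw [if_neg h1, if_neg (Ne.symm h1)]
        by_cases h3 : p.2 = q.2
        · rw [if_pos h3, if_pos h3.symm, h3, hgs]
        · rw [if_neg h3, if_neg (Ne.symm h3), hgs q.1 p.1, Sym2.eq_swap, SimpleGraph.adj_comm]
          split_ifs with h5 h6 h7 h7
          · rfl
          · exact absurd h6 (not_lt.2 h7.le)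
          · rfl
          · rfl
          · exact absurd (o.injective (le_antisymm (not_lt.1 h7) (not_lt.1 h6))) h1
    · rcases hcases p q hpq with ⟨e, _, _, h3, _⟩ | ⟨_, _, h3⟩ | ⟨_, h4, h5, h6, _, h3⟩
      · rw [h3]
        have := (c e).2
        omega
      · rw [h3]
        have := (lam p.2 (g p.1 q.1)).2
        omega
      · rw [h3]
        have h7 := hp1 p.2 q.2 h5 h4 h6
        have h8 := hp1 q.2 p.2 (r.symm h5) (Ne.symm h4) (fun h => h6 h.symm)
        split_ifs <;> omega
  · intro p q q' hpq hpq' hne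
    have hlow : ∀ q, G.Adj p.1 q.1 → p.2 ≠ q.2 → r p.2 q.2 → ¬ R.Adj p.2 q.2 →
        g p.1 q.1 = 0 → col p q = (if o p.1 < o q.1 then D - 2 * h + pp p.2 q.2
          else D - 2 * h + pp q.2 p.2) → D - 2 * h ≤ col p q := by
      intro q _ _ _ _ _ h3
      rw [h3]
      split_ifs <;> omega
    rcases hcases p q hpq with ⟨e, he1, he2, he3, he4, he5⟩ | ⟨a1, a2, a3⟩ |
      ⟨b1, b2, b3, b4, b5, b6⟩ <;>
    rcases hcases p q' hpq' with ⟨e', he1', he2', he3', he4', he5'⟩ | ⟨a1', a2', a3'⟩ |
      ⟨b1', b2', b3', b4', b5', b6'⟩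
    · rw [he3, he3']
      intro heq
      refine hc e he1 e' he1' ?_ p.2 he2 he2' (Fin.ext heq)
      intro hee
      rw [he4, he4', Prod.mk.injEq] at hee
      obtain ⟨h1, h2⟩ := hee
      have h3 : q.2 = q'.2 := by
        rw [Sym2.eq_iff] at h1
        rcases h1 with h1 | h1
        · exact h1.2
        · exact h1.2.trans h1.1
      apply hne
      refine Prod.ext ?_ h3
      by_cases h4 : p.1 = q.1
      · by_cases h5 : p.1 = q'.1
        · exact h4.symm.trans h5
        · rw [if_pos h4, if_neg h5] at h2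
          exact absurd h2 (by simp)
      · by_cases h5 : p.1 = q'.1
        · rw [if_neg h4, if_pos h5] at h2
          exact absurd h2 (by simp)
        · rw [if_neg h4, if_neg h5, Option.some.injEq] at h2
          by_contra h6
          exact hg p.1 q.1 q'.1 (he5 h4) (he5' h5) h6 h2
    · rw [he3, a3']
      intro heq
      exact hlam2 p.2 (g p.1 q'.1) e he1 he2 (Fin.ext heq)
    · have h1 := hlow q' b1' b2' b3' b4' b5' b6'
      have h2 := (c e).2
      omega
    · rw [he3', a3]
      intro heq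
      exact hlam2 p.2 (g p.1 q.1) e' he1' he2' (Fin.ext heq.symm)
    · rw [a3, a3']
      intro heq
      have h1 := hlam1 p.2 (Fin.ext heq)
      have h2 : q.1 ≠ q'.1 := fun h3 => hne (Prod.ext h3 (a2.symm.trans a2'))
      exact hg p.1 q.1 q'.1 a1 a1' h2 h1
    · have h1 := hlow q' b1' b2' b3' b4' b5' b6'
      have h2 := (lam p.2 (g p.1 q.1)).2
      omega
    · have h1 := hlow q b1 b2 b3 b4 b5 b6
      have h2 := (c e').2
      omega
    · have h1 := hlow q b1 b2 b3 b4 b5 b6
      have h2 := (lam p.2 (g p.1 q'.1)).2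
      omega
    · have h1 : q.1 = q'.1 := by
        by_contra h2
        exact hg p.1 q.1 q'.1 b1 b1' h2 (b5.trans b5'.symm)
      have h2 : q.2 ≠ q'.2 := fun h3 => hne (Prod.ext h1 h3)
      rw [b6, b6', ← h1]
      intro heq
      split_ifs at heq with h3
      · exact h2 (hp2 p.2 q.2 q'.2 b3 b2 b4 b3' b2' b4' (by omega))
      · exact h2 (hp3 p.2 q.2 q'.2 b3 b2 b4 b3' b2' b4' (by omega))

end connected

section general

variable {V W : Type*} [Fintype V] [Fintype W]

theorem general_case (m D : ℕ) (G : SimpleGraph V) (g : V → V → Fin (m + 1))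
    (hgs : ∀ a b, g a b = g b a)
    (hg : ∀ a b b', G.Adj a b → G.Adj a b' → b ≠ b' → g a b ≠ g a b')
    (G' : SimpleGraph W) (r : Setoid W)
    (hE : ∀ x x' y, r x x' → G'.Adj x y → ∃ y', r y y' ∧ G'.Adj x' y')
    (hD : ∀ x, G'.degree x + (m + 1) * cs r x ≤ D) :
    ∃ col : V × W → V × W → ℕ,
      (∀ p q, HA G G' r p q → col p q = col q p ∧ col p q < D) ∧
      ∀ p q q', HA G G' r p q → HA G G' r p q' → q ≠ q' → col p q ≠ col p q' := by
  set Rel : W → W → Prop := fun a b => G'.Adj a b ∨ r a b with hRel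
  have hRelsymm : ∀ a b, Rel a b → Rel b a := by
    rintro a b (h | h)
    · exact Or.inl h.symm
    · exact Or.inr (r.symm h)
  have hRsymm : ∀ a b, Relation.ReflTransGen Rel a b → Relation.ReflTransGen Rel b a := by
    intro a b hab
    induction hab with
    | refl => exact .refl
    | tail _ h2 ih => exact .head (hRelsymm _ _ h2) ih
  -- the connected case, for the type of `x0`
  have hT : ∀ x0 : W, ∃ col : V × W → V × W → ℕ,
      (∀ p q, Relation.ReflTransGen Rel x0 p.2 → Relation.ReflTransGen Rel x0 q.2 →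
        HA G G' r p q → col p q = col q p ∧ col p q < D) ∧
      ∀ p q q', Relation.ReflTransGen Rel x0 p.2 → Relation.ReflTransGen Rel x0 q.2 →
        Relation.ReflTransGen Rel x0 q'.2 →
        HA G G' r p q → HA G G' r p q' → q ≠ q' → col p q ≠ col p q' := by
    intro x0
    set T := {w : W // Relation.ReflTransGen Rel x0 w} with hTdef
    let val : T → W := Subtype.val
    have hval : Function.Injective val := Subtype.val_injective
    have hmemT : ∀ (y : T) (z : W), Rel y.1 z → ∃ z' : T, z'.1 = z :=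
      fun y z hyz => ⟨⟨z, y.2.tail hyz⟩, rfl⟩
    have hdeg : ∀ x : T, (G'.comap val).degree x ≤ G'.degree x.1 := by
      intro x
      rw [← SimpleGraph.card_neighborFinset_eq_degree, ← SimpleGraph.card_neighborFinset_eq_degree]
      refine Finset.card_le_card_of_injOn val ?_ (fun _ _ _ _ h => hval h)
      intro y hy
      have hy' : y ∈ (G'.comap val).neighborFinset x := hy
      rw [SimpleGraph.mem_neighborFinset] at hy'
      rw [Finset.mem_coe, SimpleGraph.mem_neighborFinset]
      exact hy'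
    have hcs : ∀ x : T, cs (r.comap val) x ≤ cs r x.1 := by
      intro x
      refine Finset.card_le_card_of_injOn val ?_ (fun _ _ _ _ h => hval h)
      intro y hy
      have hy' := (mem_filter.1 (Finset.mem_coe.1 hy)).2
      exact Finset.mem_coe.2 (mem_filter.2 ⟨mem_univ _, hy'⟩)
    have hfrom : ∀ (w : W) (hw : Relation.ReflTransGen Rel x0 w),
        Relation.ReflTransGen (fun a b : T => (G'.comap val).Adj a b ∨ (r.comap val) a b)
          ⟨x0, .refl⟩ ⟨w, hw⟩ := by
      intro w hw
      induction hw with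
      | refl => exact .refl
      | tail h1 h2 ih => exact ih.tail h2
    have hsy : ∀ a b : T,
        Relation.ReflTransGen (fun a b : T => (G'.comap val).Adj a b ∨ (r.comap val) a b) a b →
        Relation.ReflTransGen (fun a b : T => (G'.comap val).Adj a b ∨ (r.comap val) a b) b a := by
      intro a b hab
      induction hab with
      | refl => exact .refl
      | tail _ h2 ih => exact .head (hRelsymm _ _ h2) ih
    obtain ⟨col, hcol1, hcol2⟩ := connected_case m D G g hgs hg (G'.comap val) (r.comap val)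
      (by
        intro x x' y hxx hxy
        obtain ⟨y', h1, h2⟩ := hE x.1 x'.1 y.1 hxx hxy
        obtain ⟨z, rfl⟩ := hmemT y y' (Or.inr h1)
        exact ⟨z, h1, h2⟩)
      (by
        intro x
        exact le_trans (Nat.add_le_add (le_of_eq_of_le (degree_congr rfl) (hdeg x))
          (Nat.mul_le_mul_left (m + 1) (hcs x))) (hD x.1))
      ⟨⟨x0, .refl⟩⟩
      (by
        rintro ⟨x, hx⟩ ⟨y, hy⟩
        exact (hsy _ _ (hfrom x hx)).trans (hfrom y hy))
    have key : ∀ (p : V × W) (hp : Relation.ReflTransGen Rel x0 p.2) (q : V × W)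
        (hq : Relation.ReflTransGen Rel x0 q.2), HA G G' r p q →
        HA G (G'.comap val) (r.comap val) (p.1, (⟨p.2, hp⟩ : T)) (q.1, (⟨q.2, hq⟩ : T)) :=
      fun p hp q hq h => h
    refine ⟨fun p q => if h : Relation.ReflTransGen Rel x0 p.2 ∧ Relation.ReflTransGen Rel x0 q.2
      then col (p.1, ⟨p.2, h.1⟩) (q.1, ⟨q.2, h.2⟩) else 0, ?_, ?_⟩
    · intro p q hp hq hpq
      beta_reduce
      rw [dif_pos ⟨hp, hq⟩, dif_pos ⟨hq, hp⟩]
      exact hcol1 _ _ (key p hp q hq hpq)
    · intro p q q' hp hq hq' hpq hpq' hne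
      beta_reduce
      rw [dif_pos ⟨hp, hq⟩, dif_pos ⟨hp, hq'⟩]
      refine hcol2 _ _ _ (key p hp q hq hpq) (key p hp q' hq' hpq') ?_
      intro h
      rw [Prod.mk.injEq, Subtype.mk.injEq] at h
      exact hne (Prod.ext h.1 h.2)
  choose cl hcl1 hcl2 using hT
  let ts : Setoid W :=
    { r := Relation.ReflTransGen Rel
      iseqv := ⟨fun _ => .refl, fun h => hRsymm _ _ h, fun h h' => h.trans h'⟩ }
  let rep : W → W := fun x => (Quotient.mk ts x).out
  have hrep : ∀ x, Relation.ReflTransGen Rel (rep x) x := fun x => Quotient.mk_out (s := ts) x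
  have hrepeq : ∀ x y, Relation.ReflTransGen Rel x y → rep x = rep y := by
    intro x y hxy
    have : Quotient.mk ts x = Quotient.mk ts y := Quotient.sound hxy
    simp only [rep, this]
  have hHA : ∀ p q, HA G G' r p q → Relation.ReflTransGen Rel p.2 q.2 := by
    rintro p q (⟨_, h⟩ | ⟨_, h⟩)
    · exact .single (Or.inl h)
    · exact .single (Or.inr h)
  refine ⟨fun p q => cl (rep p.2) p q, ?_, ?_⟩
  · intro p q hpq
    have h1 := hHA p q hpq
    have h2 := hcl1 (rep p.2) p q (hrep _) ((hrep _).trans h1) hpq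
    simp only
    rw [← hrepeq _ _ h1]
    exact h2
  · intro p q q' hpq hpq' hne
    exact hcl2 (rep p.2) p q q' (hrep _) ((hrep _).trans (hHA p q hpq))
      ((hrep _).trans (hHA p q' hpq')) hpq hpq' hne

end general

end Pool.Agent.TH944.Wr
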