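import Mathlib

/-! Vizing fans in multigraphs. -/

set_option autoImplicit false

namespace Pool.Agent.TH944.Fan

open Finset Classical

variable {V E K : Type*}

/-- `c` is a proper edge colouring of the edges in `S`. -/
def Proper (ends : E → Sym2 V) (S : Finset E) (c : E → K) : Prop :=
  ∀ e ∈ S, ∀ f ∈ S, e ≠ f → ∀ x, x ∈ ends e → x ∈ ends f → c e ≠ c f

/-- The colour `a` is missing at the vertex `x`. -/
def Miss (ends : E → Sym2 V) (S : Finset E) (c : E → K) (x : V) (a : K) : Prop :=
  ∀ e ∈ S, x ∈ ends e → c e ≠ a

/-- Vertices reachable by a fan at `u` starting from `v` in `n` steps. -/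
inductive RN (ends : E → Sym2 V) (S : Finset E) (u v : V) (c : E → K) : ℕ → V → Prop
  | zero : RN ends S u v c 0 v
  | succ (n : ℕ) (y y' : V) (e : E) (h : RN ends S u v c n y) (he : e ∈ S)
      (h' : ends e = s(u, y')) (hm : Miss ends S c y (c e)) : RN ends S u v c (n + 1) y'

variable {ends : E → Sym2 V} {S : Finset E} {u v : V} {e0 : E}

theorem RN.shift {c : E → K} {e : E} {a : K} {y : V} (h' : ends e = s(u, y))
    (ha' : Miss ends S c u a) :
    ∀ (m : ℕ) (z : V), RN ends S u v c m z →
      RN ends S u v (Function.update c e a) m z ∨ ∃ m' ≤ m, RN ends S u v c m' y := by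
  intro m
  induction m with
  | zero =>
    intro z hz
    cases hz
    exact Or.inl .zero
  | succ m ih =>
    intro z hz
    have hz0 := hz
    cases hz with
    | succ _ z' _ f h hf h'' hm =>
      rcases ih z' h with h1 | ⟨m', hm', h1⟩
      · by_cases hfe : f = e
        · subst hfe
          rw [h'] at h''
          have : y = z := by
            rw [Sym2.eq_iff] at h''
            rcases h'' with h2 | h2
            · exact h2.2
            · rw [h2.2, ← h2.1]
          subst this
          exact Or.inr ⟨m + 1, le_rfl, hz0⟩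
        · left
          refine .succ m z' z f h1 hf h'' ?_
          rw [Function.update_of_ne hfe]
          have hfu : c f ≠ a := ha' f hf (by rw [h'']; simp)
          intro g hg hzg
          by_cases hge : g = e
          · subst hge
            rw [Function.update_self]
            exact fun h => hfu h.symm
          · rw [Function.update_of_ne hge]
            exact hm g hg hzg
      · exact Or.inr ⟨m', by omega, h1⟩

theorem proper_update {c : E → K} (hc : Proper ends S c) {e : E} {a : K}
    (h : ∀ x, x ∈ ends e → Miss ends S c x a) :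
    Proper ends (insert e S) (Function.update c e a) := by
  intro f hf g hg hfg x hxf hxg
  rw [Finset.mem_insert] at hf hg
  by_cases h1 : f = e
  · subst h1
    have hg' : g ∈ S := hg.resolve_left (fun h => hfg h.symm)
    rw [Function.update_self, Function.update_of_ne (Ne.symm hfg)]
    exact fun h2 => h x hxf g hg' hxg h2.symm
  · by_cases h2 : g = e
    · subst h2
      rw [Function.update_self, Function.update_of_ne hfg]
      exact h x hxg f (hf.resolve_left h1) hxf
    · rw [Function.update_of_ne h1, Function.update_of_ne h2]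
      exact hc f (hf.resolve_left h1) g (hg.resolve_left h2) hfg x hxf hxg

theorem extend_of_common (hends : ends e0 = s(u, v)) :
    ∀ (n : ℕ) (c : E → K), Proper ends S c → ∀ y, RN ends S u v c n y →
      ∀ a, Miss ends S c y a → Miss ends S c u a →
      ∃ c' : E → K, Proper ends (insert e0 S) c' := by
  intro n
  induction n using Nat.strong_induction_on with
  | _ n ih =>
    intro c hc y hy a ha ha'
    cases hy with
    | zero =>
      refine ⟨Function.update c e0 a, proper_update hc ?_⟩
      intro x hx
      rw [hends, Sym2.mem_iff] at hx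
      rcases hx with rfl | rfl
      · exact ha'
      · exact ha
    | succ n y'' y e h he h' hm =>
      have hu : u ∈ ends e := by rw [h']; simp
      have hy : y ∈ ends e := by rw [h']; simp
      have hpr : Proper ends S (Function.update c e a) := by
        have := proper_update (e := e) (a := a) hc (by
          intro x hx
          rw [h', Sym2.mem_iff] at hx
          rcases hx with rfl | rfl
          · exact ha'
          · exact ha)
        rwa [Finset.insert_eq_of_mem he] at this
      have hcea : a ≠ c e := fun h => ha' e he hu h.symm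
      rcases RN.shift (v := v) h' ha' n y'' h with h1 | ⟨m', hm', h1⟩
      · refine ih n (by omega) (Function.update c e a) hpr y'' h1 (c e) ?_ ?_
        · intro g hg hyg
          by_cases hge : g = e
          · subst hge
            rw [Function.update_self]
            exact hcea
          · rw [Function.update_of_ne hge]
            exact hm g hg hyg
        · intro g hg hyg
          by_cases hge : g = e
          · subst hge
            rw [Function.update_self]
            exact hcea
          · rw [Function.update_of_ne hge]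
            exact hc g hg e he hge u hyg hu
      · exact ih m' (by omega) c hc y h1 a ha ha'

theorem three_ends [Fintype V] (G : SimpleGraph V) (h2 : ∀ x, G.degree x ≤ 2) {a b c : V}
    (hab : a ≠ b) (hac : a ≠ c) (hbc : b ≠ c) (ha : G.degree a ≤ 1) (hb : G.degree b ≤ 1)
    (hc : G.degree c ≤ 1) (h1 : G.Reachable a b) (h3 : G.Reachable a c) : False := by
  set C : Set V := (G.connectedComponentMk a).supp with hC
  have hmem : ∀ x, x ∈ C ↔ G.Reachable x a := by
    intro x
    rw [hC, SimpleGraph.ConnectedComponent.mem_supp_iff, SimpleGraph.ConnectedComponent.eq]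
  have hconn : (G.induce C).Connected := (G.connectedComponentMk a).connected_toSimpleGraph
  have haC : a ∈ C := (hmem a).2 (SimpleGraph.Reachable.refl a)
  have hbC : b ∈ C := (hmem b).2 h1.symm
  have hcC : c ∈ C := (hmem c).2 h3.symm
  have hdeg : ∀ x : C, (G.induce C).degree x = G.degree x.1 := by
    intro x
    apply SimpleGraph.degree_induce_of_neighborSet_subset
    intro y hy
    rw [SimpleGraph.mem_neighborSet] at hy
    exact (hmem y).2 (hy.symm.reachable.trans ((hmem _).1 x.2))
  have hsum := SimpleGraph.sum_degrees_eq_twice_card_edges (G.induce C)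
  have hcard := hconn.card_vert_le_card_edgeSet_add_one
  rw [Nat.card_eq_fintype_card, Nat.card_eq_fintype_card, ← SimpleGraph.edgeFinset_card] at hcard
  have key : ∑ x : C, ((G.induce C).degree x +
      ((if x = ⟨a, haC⟩ then 1 else 0) + (if x = ⟨b, hbC⟩ then 1 else 0) +
        (if x = ⟨c, hcC⟩ then 1 else 0))) ≤ ∑ x : C, 2 := by
    refine Finset.sum_le_sum ?_
    intro x _
    rw [hdeg]
    have h := h2 x.1
    by_cases hxa : x = ⟨a, haC⟩
    · subst hxa
      simp only [Subtype.mk.injEq, hab, hac, if_true, if_false]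
      simpa using ha
    · by_cases hxb : x = ⟨b, hbC⟩
      · subst hxb
        simp only [Subtype.mk.injEq, hab.symm, hbc, if_true, if_false]
        simpa using hb
      · by_cases hxc : x = ⟨c, hcC⟩
        · subst hxc
          simp only [Subtype.mk.injEq, hac.symm, hbc.symm, if_true, if_false]
          simpa using hc
        · simpa [hxa, hxb, hxc] using h
  rw [Finset.sum_add_distrib, hsum, Finset.sum_add_distrib, Finset.sum_add_distrib,
    Finset.sum_ite_eq', Finset.sum_ite_eq', Finset.sum_ite_eq'] at key
  simp only [Finset.mem_univ, if_true, Finset.sum_const, Finset.card_univ, smul_eq_mul] at key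
  omega

/-- The graph formed by the edges coloured `α` or `β`. -/
def KG (ends : E → Sym2 V) (S : Finset E) (c : E → K) (α β : K) : SimpleGraph V where
  Adj x y := x ≠ y ∧ ∃ e ∈ S, ends e = s(x, y) ∧ (c e = α ∨ c e = β)
  symm := by
    constructor
    rintro x y ⟨h, e, he, h1, h2⟩
    exact ⟨h.symm, e, he, by rw [h1, Sym2.eq_swap], h2⟩
  loopless := ⟨fun x h => h.1 rfl⟩

theorem KG_degree_le [Fintype V] {c : E → K} (hc : Proper ends S c) (α β : K) (x : V)
    (B : Finset K) (hB : ∀ γ, (γ = α ∨ γ = β) → ¬ Miss ends S c x γ → γ ∈ B) :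
    (KG ends S c α β).degree x ≤ B.card := by
  rw [← SimpleGraph.card_neighborFinset_eq_degree]
  have h : ∀ y ∈ (KG ends S c α β).neighborFinset x,
      ∃ e ∈ S, ends e = s(x, y) ∧ (c e = α ∨ c e = β) := by
    intro y hy
    rw [SimpleGraph.mem_neighborFinset] at hy
    exact hy.2
  rcases isEmpty_or_nonempty E with hE | hE
  · have h0 : (KG ends S c α β).neighborFinset x = ∅ := by
      rw [Finset.eq_empty_iff_forall_notMem]
      intro y hy
      obtain ⟨e, _⟩ := h y hy
      exact hE.elim e
    rw [h0, Finset.card_empty]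
    exact Nat.zero_le _
  choose! f hf1 hf2 hf3 using h
  refine Finset.card_le_card_of_injOn (fun y => c (f y)) ?_ ?_
  · intro y hy
    have hy' : y ∈ (KG ends S c α β).neighborFinset x := hy
    refine hB _ (hf3 y hy') ?_
    intro hm
    exact hm (f y) (hf1 y hy') (by rw [hf2 y hy']; simp) rfl
  · intro y hy y' hy' heq
    have hy1 : y ∈ (KG ends S c α β).neighborFinset x := hy
    have hy2 : y' ∈ (KG ends S c α β).neighborFinset x := hy'
    by_contra hne
    have hff : f y ≠ f y' := by
      intro h
      have h1 := hf2 y hy1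
      rw [h, hf2 y' hy2, Sym2.eq_iff] at h1
      rcases h1 with h1 | h1
      · exact hne h1.2.symm
      · exact hne (by rw [h1.1.symm, h1.2])
    exact hc _ (hf1 y hy1) _ (hf1 y' hy2) hff x (by rw [hf2 y hy1]; simp)
      (by rw [hf2 y' hy2]; simp) heq

/-- Swap the colours `α` and `β` on the edges with an end in `C`. -/
noncomputable def swp (ends : E → Sym2 V) (c : E → K) (α β : K) (C : Set V) : E → K := fun e =>
  if ∃ x ∈ C, x ∈ ends e then Equiv.swap α β (c e) else c e

section swap

variable {c : E → K} {α β : K} {C : Set V}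

theorem swp_of_mem {e : E} {x : V} (hx : x ∈ C) (hxe : x ∈ ends e) :
    swp ends c α β C e = Equiv.swap α β (c e) := by
  rw [swp, if_pos ⟨x, hx, hxe⟩]

theorem swp_of_not_mem
    (hC : ∀ e ∈ S, (c e = α ∨ c e = β) → ∀ x ∈ ends e, ∀ y ∈ ends e, x ∈ C → y ∈ C)
    {e : E} (he : e ∈ S) {x : V} (hx : x ∉ C) (hxe : x ∈ ends e) :
    swp ends c α β C e = c e := by
  rw [swp]
  split_ifs with h
  · obtain ⟨y, hy, hye⟩ := h
    have h1 : ¬ (c e = α ∨ c e = β) := fun h1 => hx (hC e he h1 y hye x hxe hy)
    push Not at h1
    exact Equiv.swap_apply_of_ne_of_ne h1.1 h1.2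
  · rfl

theorem swp_proper (hc : Proper ends S c)
    (hC : ∀ e ∈ S, (c e = α ∨ c e = β) → ∀ x ∈ ends e, ∀ y ∈ ends e, x ∈ C → y ∈ C) :
    Proper ends S (swp ends c α β C) := by
  intro e he f hf hef x hxe hxf
  by_cases hx : x ∈ C
  · rw [swp_of_mem hx hxe, swp_of_mem hx hxf]
    exact fun h => hc e he f hf hef x hxe hxf ((Equiv.swap α β).injective h)
  · rw [swp_of_not_mem hC he hx hxe, swp_of_not_mem hC hf hx hxf]
    exact hc e he f hf hef x hxe hxf

theorem miss_swp_of_not_mem
    (hC : ∀ e ∈ S, (c e = α ∨ c e = β) → ∀ x ∈ ends e, ∀ y ∈ ends e, x ∈ C → y ∈ C)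
    {x : V} (hx : x ∉ C) {γ : K} (h : Miss ends S c x γ) :
    Miss ends S (swp ends c α β C) x γ := by
  intro e he hxe
  rw [swp_of_not_mem hC he hx hxe]
  exact h e he hxe

theorem miss_swp_of_mem {x : V} (hx : x ∈ C) {γ : K}
    (h : Miss ends S c x (Equiv.swap α β γ)) :
    Miss ends S (swp ends c α β C) x γ := by
  intro e he hxe
  rw [swp_of_mem hx hxe]
  intro h1
  apply h e he hxe
  rw [← h1, Equiv.swap_apply_self]

theorem RN.swp
    (hC : ∀ e ∈ S, (c e = α ∨ c e = β) → ∀ x ∈ ends e, ∀ y ∈ ends e, x ∈ C → y ∈ C)
    (hu : u ∉ C) :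
    ∀ (l : ℕ) (w : V), RN ends S u v c l w →
      (∀ l' < l, ∀ z, RN ends S u v c l' z → z ∈ C →
        ¬ Miss ends S c z α ∧ ¬ Miss ends S c z β) →
      RN ends S u v (swp ends c α β C) l w := by
  intro l
  induction l with
  | zero =>
    intro w hw _
    cases hw
    exact .zero
  | succ l ih =>
    intro w hw h
    cases hw with
    | succ _ z _ e hz he h' hm =>
      have h1 := ih z hz (fun l' hl' => h l' (by omega))
      have hce : Fan.swp ends c α β C e = c e :=
        swp_of_not_mem hC he hu (by rw [h']; simp)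
      refine .succ l z w e h1 he h' ?_
      rw [hce]
      by_cases hzC : z ∈ C
      · apply miss_swp_of_mem hzC
        have h2 := h l (by omega) z hz hzC
        rw [Equiv.swap_apply_of_ne_of_ne]
        · exact hm
        · intro h3
          exact h2.1 (h3 ▸ hm)
        · intro h3
          exact h2.2 (h3 ▸ hm)
      · exact miss_swp_of_not_mem hC hzC hm

theorem extend_of_chain (hends : ends e0 = s(u, v)) (hc : Proper ends S c)
    (hC : ∀ e ∈ S, (c e = α ∨ c e = β) → ∀ x ∈ ends e, ∀ y ∈ ends e, x ∈ C → y ∈ C)
    (hu : u ∉ C) (hβ : Miss ends S c u β) {l : ℕ} {z : V} (hz : z ∈ C)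
    (hl : RN ends S u v c l z) (hα : Miss ends S c z α)
    (h : ∀ l' < l, ∀ z, RN ends S u v c l' z → z ∈ C → ¬ Miss ends S c z α) :
    ∃ c' : E → K, Proper ends (insert e0 S) c' := by
  by_cases hb : ∃ l z, RN ends S u v c l z ∧ Miss ends S c z β
  · obtain ⟨l, z, h1, h2⟩ := hb
    exact extend_of_common hends l c hc z h1 β h2 hβ
  · push Not at hb
    have h1 := RN.swp (v := v) hC hu l z hl (fun l' hl' z' hz' hzC =>
      ⟨h l' hl' z' hz' hzC, hb l' z' hz'⟩)
    refine extend_of_common hends l _ (swp_proper hc hC) z h1 β ?_ ?_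
    · apply miss_swp_of_mem hz
      rwa [Equiv.swap_apply_right]
    · exact miss_swp_of_not_mem hC hu hβ

end swap

theorem RN.ne (huv : u ≠ v) (hS : ∀ e ∈ S, ¬ (ends e).IsDiag) {c : E → K} {n : ℕ} {y : V}
    (h : RN ends S u v c n y) : u ≠ y := by
  cases h with
  | zero => exact huv
  | succ n y' _ e h he h' hm =>
    intro h1
    apply hS e he
    rw [h', h1]
    simp

theorem miss_disjoint [Fintype V] (hends : ends e0 = s(u, v)) (huv : u ≠ v)
    (hS : ∀ e ∈ S, ¬ (ends e).IsDiag) {c : E → K} (hc : Proper ends S c)
    {β : K} (hβ : Miss ends S c u β)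
    (hno : ¬ ∃ c' : E → K, Proper ends (insert e0 S) c') :
    ∀ (N n m : ℕ), n + m = N → ∀ y y', RN ends S u v c n y → RN ends S u v c m y' → y ≠ y' →
      ∀ α, Miss ends S c y α → Miss ends S c y' α → False := by
  intro N
  induction N using Nat.strong_induction_on with
  | _ N ih =>
    intro n m hnm y y' hy hy' hne α hα hα'
    have hF4 : ∀ l < n, ∀ z, RN ends S u v c l z → z ≠ y' → ¬ Miss ends S c z α := by
      intro l hl z hz hzy h
      exact ih (l + m) (by omega) l m rfl z y' hz hy' hzy α h hα'
    have hF3 : ∀ l < m, ∀ z, RN ends S u v c l z → z ≠ y → ¬ Miss ends S c z α := by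
      intro l hl z hz hzy h
      exact ih (n + l) (by omega) n l rfl y z hy hz (Ne.symm hzy) α hα h
    have hF5 : ∀ l < n, l < m → ∀ z, RN ends S u v c l z → ¬ Miss ends S c z α := by
      intro l hl hl' z hz
      by_cases h1 : z = y'
      · subst h1
        exact hF3 l hl' z hz (Ne.symm hne)
      · exact hF4 l hl z hz h1
    have hclosed : ∀ w : V, ∀ e ∈ S, (c e = α ∨ c e = β) → ∀ x ∈ ends e, ∀ y ∈ ends e,
        x ∈ {x | (KG ends S c α β).Reachable x w} → y ∈ {x | (KG ends S c α β).Reachable x w} := by
      intro w e he hce x hx y hy hxC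
      by_cases hxy : x = y
      · rwa [← hxy]
      · have hadj : (KG ends S c α β).Adj y x := by
          refine ⟨Ne.symm hxy, e, he, ?_, hce⟩
          rw [Sym2.eq_swap]
          exact (Sym2.mem_and_mem_iff hxy).1 ⟨hx, hy⟩
        exact hadj.reachable.trans hxC
    have hthree : ¬ ((KG ends S c α β).Reachable u y ∧ (KG ends S c α β).Reachable u y') := by
      rintro ⟨h1, h2⟩
      refine three_ends (KG ends S c α β) ?_ (hy.ne huv hS) (hy'.ne huv hS) hne ?_ ?_ ?_ h1 h2
      · intro x
        exact (KG_degree_le hc α β x {α, β} (by intro γ h _; simpa using h)).trans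
          (Finset.card_le_two)
      · refine (KG_degree_le hc α β u {α} ?_).trans (Finset.card_singleton _).le
        intro γ h h'
        rcases h with rfl | rfl
        · simp
        · exact absurd hβ h'
      · refine (KG_degree_le hc α β y {β} ?_).trans (Finset.card_singleton _).le
        intro γ h h'
        rcases h with rfl | rfl
        · exact absurd hα h'
        · simp
      · refine (KG_degree_le hc α β y' {β} ?_).trans (Finset.card_singleton _).le
        intro γ h h'
        rcases h with rfl | rfl
        · exact absurd hα' h'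
        · simp
    apply hno
    -- a component containing `y` or `y'` but not `u`
    have main : ∀ w : V, (w = y ∨ w = y') → ¬ (KG ends S c α β).Reachable u w →
        ∃ c' : E → K, Proper ends (insert e0 S) c' := by
      intro w hw hu
      have hwC : w ∈ {x | (KG ends S c α β).Reachable x w} := SimpleGraph.Reachable.refl w
      by_cases hyC : y ∈ {x | (KG ends S c α β).Reachable x w}
      · by_cases hyC' : y' ∈ {x | (KG ends S c α β).Reachable x w}
        · rcases le_total n m with hle | hle
          · refine extend_of_chain hends hc (hclosed w) hu hβ hyC hy hα ?_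
            intro l' hl' z hz _
            exact hF5 l' hl' (by omega) z hz
          · refine extend_of_chain hends hc (hclosed w) hu hβ hyC' hy' hα' ?_
            intro l' hl' z hz _
            exact hF5 l' (by omega) hl' z hz
        · refine extend_of_chain hends hc (hclosed w) hu hβ hyC hy hα ?_
          intro l' hl' z hz hzC
          exact hF4 l' hl' z hz (fun h => hyC' (h ▸ hzC))
      · have hwy : w = y' := hw.resolve_left (fun h => hyC (h ▸ hwC))
        refine extend_of_chain hends hc (hclosed w) hu hβ (z := y') (hwy ▸ hwC) hy' hα' ?_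
        intro l' hl' z hz hzC
        exact hF3 l' hl' z hz (fun h => hyC (h ▸ hzC))
    by_cases h1 : (KG ends S c α β).Reachable u y
    · exact main y' (Or.inr rfl) (fun h2 => hthree ⟨h1, h2⟩)
    · exact main y (Or.inl rfl) h1

/-- The degree of `x` in the multigraph with edge set `S`. -/
noncomputable def dg (ends : E → Sym2 V) (S : Finset E) (x : V) : ℕ :=
  (S.filter (fun e => x ∈ ends e)).card

/-- The number of edges of `S` joining `x` and `y`. -/
noncomputable def mu (ends : E → Sym2 V) (S : Finset E) (x y : V) : ℕ :=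
  (S.filter (fun e => ends e = s(x, y))).card

theorem fan_count [Fintype V] [Fintype K] (he0 : e0 ∉ S) (hends : ends e0 = s(u, v)) (huv : u ≠ v)
    (hS : ∀ e ∈ S, ¬ (ends e).IsDiag) {c : E → K} (hc : Proper ends S c)
    (hdu : dg ends S u < Fintype.card K)
    (hno : ¬ ∃ c' : E → K, Proper ends (insert e0 S) c') :
    ∃ Y : Finset V, Fintype.card K * Y.card + 2 ≤
      ∑ y ∈ Y, (dg ends (insert e0 S) y + mu ends (insert e0 S) u y) := by
  -- a colour missing at `u`
  obtain ⟨β, hβ⟩ : ∃ β, Miss ends S c u β := by
    by_contra hcon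
    push Not at hcon
    have h1 : (Finset.univ : Finset K) ⊆ (S.filter (fun e => u ∈ ends e)).image c := by
      intro a _
      have h2 := hcon a
      rw [Miss] at h2
      push Not at h2
      obtain ⟨e, he, hu, hca⟩ := h2
      exact Finset.mem_image.2 ⟨e, Finset.mem_filter.2 ⟨he, hu⟩, hca⟩
    have h2 := (Finset.card_le_card h1).trans Finset.card_image_le
    rw [Finset.card_univ] at h2
    rw [dg] at hdu
    omega
  set Y : Finset V := Finset.univ.filter (fun y => ∃ n, RN ends S u v c n y) with hY
  have hvY : v ∈ Y := by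
    rw [hY, Finset.mem_filter]
    exact ⟨Finset.mem_univ _, 0, .zero⟩
  set M : V → Finset K := fun y => Finset.univ.filter (fun a => Miss ends S c y a) with hM
  have hM1 : ∀ y, Fintype.card K ≤ (M y).card + dg ends S y := by
    intro y
    have h1 : (Finset.univ : Finset K) ⊆ M y ∪ (S.filter (fun e => y ∈ ends e)).image c := by
      intro a _
      rw [Finset.mem_union]
      by_cases h2 : Miss ends S c y a
      · left
        exact Finset.mem_filter.2 ⟨Finset.mem_univ _, h2⟩
      · right
        rw [Miss] at h2
        push Not at h2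
        obtain ⟨e, he, hu, hca⟩ := h2
        exact Finset.mem_image.2 ⟨e, Finset.mem_filter.2 ⟨he, hu⟩, hca⟩
    calc Fintype.card K = (Finset.univ : Finset K).card := rfl
      _ ≤ _ := Finset.card_le_card h1
      _ ≤ _ := Finset.card_union_le _ _
      _ ≤ _ := Nat.add_le_add_left Finset.card_image_le _
  have hdisj : ∀ y ∈ Y, ∀ y' ∈ Y, y ≠ y' → Disjoint (M y) (M y') := by
    intro y hy y' hy' hne
    obtain ⟨n, hn⟩ := (Finset.mem_filter.1 hy).2
    obtain ⟨m, hm⟩ := (Finset.mem_filter.1 hy').2
    rw [Finset.disjoint_left]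
    intro a ha ha'
    exact miss_disjoint hends huv hS hc hβ hno (n + m) n m rfl y y' hn hm hne a
      (Finset.mem_filter.1 ha).2 (Finset.mem_filter.1 ha').2
  have hsum : ∑ y ∈ Y, (M y).card ≤ ∑ y ∈ Y, mu ends S u y := by
    rw [← Finset.card_biUnion hdisj]
    have h1 : Y.biUnion M ⊆ (Y.biUnion (fun y => S.filter (fun e => ends e = s(u, y)))).image c := by
      intro a ha
      obtain ⟨y, hy, hay⟩ := Finset.mem_biUnion.1 ha
      obtain ⟨n, hn⟩ := (Finset.mem_filter.1 hy).2
      have hmy := (Finset.mem_filter.1 hay).2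
      have hau : ¬ Miss ends S c u a := fun h =>
        hno (extend_of_common hends n c hc y hn a hmy h)
      rw [Miss] at hau
      push Not at hau
      obtain ⟨e, he, hu, hca⟩ := hau
      obtain ⟨z, hz⟩ := Sym2.mem_iff_exists.1 hu
      have hzY : z ∈ Y := by
        rw [hY, Finset.mem_filter]
        exact ⟨Finset.mem_univ _, n + 1, .succ n y z e hn he hz (hca.symm ▸ hmy)⟩
      exact Finset.mem_image.2 ⟨e, Finset.mem_biUnion.2 ⟨z, hzY, Finset.mem_filter.2 ⟨he, hz⟩⟩, hca⟩
    exact ((Finset.card_le_card h1).trans Finset.card_image_le).trans Finset.card_biUnion_le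
  refine ⟨Y, ?_⟩
  have hdg : ∀ y, dg ends S y ≤ dg ends (insert e0 S) y := by
    intro y
    exact Finset.card_le_card (Finset.filter_subset_filter _ (Finset.subset_insert _ _))
  have hmu : ∀ y, mu ends S u y ≤ mu ends (insert e0 S) u y := by
    intro y
    exact Finset.card_le_card (Finset.filter_subset_filter _ (Finset.subset_insert _ _))
  have hdgv : dg ends S v + 1 = dg ends (insert e0 S) v := by
    rw [dg, dg, Finset.filter_insert, if_pos (by rw [hends]; simp),
      Finset.card_insert_of_notMem (fun h => he0 (Finset.mem_filter.1 h).1)]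
  have hmuv : mu ends S u v + 1 = mu ends (insert e0 S) u v := by
    rw [mu, mu, Finset.filter_insert, if_pos hends,
      Finset.card_insert_of_notMem (fun h => he0 (Finset.mem_filter.1 h).1)]
  have h1 : Fintype.card K * Y.card ≤ ∑ y ∈ Y, ((M y).card + dg ends S y) := by
    calc Fintype.card K * Y.card = ∑ _y ∈ Y, Fintype.card K := by
          rw [Finset.sum_const, smul_eq_mul, mul_comm]
      _ ≤ _ := Finset.sum_le_sum (fun y _ => hM1 y)
  have h2 : ∑ y ∈ Y, (dg ends S y + mu ends S u y) + 2 ≤
      ∑ y ∈ Y, (dg ends (insert e0 S) y + mu ends (insert e0 S) u y) := by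
    rw [← Finset.add_sum_erase Y _ hvY, ← Finset.add_sum_erase Y _ hvY]
    have h3 : ∑ y ∈ Y.erase v, (dg ends S y + mu ends S u y) ≤
        ∑ y ∈ Y.erase v, (dg ends (insert e0 S) y + mu ends (insert e0 S) u y) :=
      Finset.sum_le_sum (fun y _ => Nat.add_le_add (hdg y) (hmu y))
    omega
  rw [Finset.sum_add_distrib] at h1 h2
  omega

/-- A multigraph which is not edge colourable contains a critical one. -/
theorem exists_critical [Fintype V] [Fintype K] [Nonempty K] (SQ : Finset E)
    (hS : ∀ e ∈ SQ, ¬ (ends e).IsDiag) (hdeg : ∀ x, dg ends SQ x ≤ Fintype.card K)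
    (hno : ¬ ∃ c : E → K, Proper ends SQ c) :
    ∃ S ⊆ SQ, S.Nonempty ∧ ∀ u, (∃ e ∈ S, u ∈ ends e) →
      ∃ Y : Finset V, Fintype.card K * Y.card + 2 ≤ ∑ y ∈ Y, (dg ends S y + mu ends S u y) := by
  obtain ⟨S, hSmem, hSmin⟩ := Finset.exists_min_image
    (SQ.powerset.filter (fun S => ¬ ∃ c : E → K, Proper ends S c)) Finset.card
    ⟨SQ, Finset.mem_filter.2 ⟨Finset.mem_powerset_self SQ, hno⟩⟩
  rw [Finset.mem_filter, Finset.mem_powerset] at hSmem
  refine ⟨S, hSmem.1, ?_, ?_⟩
  · rw [Finset.nonempty_iff_ne_empty]
    rintro rfl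
    exact hSmem.2 ⟨fun _ => Classical.arbitrary K, fun e he => absurd he (Finset.notMem_empty e)⟩
  · rintro u ⟨e, he, hue⟩
    obtain ⟨v, hv⟩ := Sym2.mem_iff_exists.1 hue
    have huv : u ≠ v := by
      rintro rfl
      apply hS e (hSmem.1 he)
      rw [hv]
      simp
    obtain ⟨c, hc⟩ : ∃ c : E → K, Proper ends (S.erase e) c := by
      by_contra hcon
      have := hSmin (S.erase e) (Finset.mem_filter.2
        ⟨Finset.mem_powerset.2 ((Finset.erase_subset e S).trans hSmem.1), hcon⟩)
      have h2 := Finset.card_erase_lt_of_mem he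
      omega
    have hins : insert e (S.erase e) = S := Finset.insert_erase he
    have hdu : dg ends (S.erase e) u < Fintype.card K := by
      have h1 : dg ends (S.erase e) u < dg ends S u := by
        apply Finset.card_lt_card
        rw [Finset.ssubset_iff_of_subset
          (Finset.filter_subset_filter _ (Finset.erase_subset e S))]
        refine ⟨e, Finset.mem_filter.2 ⟨he, hue⟩, ?_⟩
        rw [Finset.mem_filter]
        simp
      have h2 : dg ends S u ≤ dg ends SQ u :=
        Finset.card_le_card (Finset.filter_subset_filter _ hSmem.1)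
      exact lt_of_lt_of_le h1 (h2.trans (hdeg u))
    have := fan_count (e0 := e) (S := S.erase e) (u := u) (v := v) (by simp) hv huv
      (fun f hf => hS f (hSmem.1 (Finset.mem_of_mem_erase hf))) hc hdu (by rw [hins]; exact hSmem.2)
    rwa [hins] at this

end Pool.Agent.TH944.Fan
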